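import Pool.Agent.Work.MP_6e5b56_gt.Hedge.Main
import Pool.Agent.Work.MP_6e5b56_gt.Mag

/-! Wedge counterexample with full-dimensional overlap (all parts in one file). -/

set_option autoImplicit false

open Classical
open MeasureTheory Set Filter Real Topology Pointwise

namespace Pool.Agent.Work.MP_6e5b56_gt.Wg

section
/-! Definitions for the wedge counterexample with full-dimensional overlap. -/

/-- Magnitude of a planar set. -/
noncomputable def M (S : Set Pl) : ℝ := Hedge.mag S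

lemma M_eq (S : Set Pl) : M S = Pool.Agent.Work.MP_6e5b56_gt.mag S := rfl

/-- The inclusion-exclusion defect. -/
noncomputable def df (A B : Set Pl) : ℝ := M (A ∪ B) + M (A ∩ B) - M A - M B

/-- The point with coordinates `x, y`. -/
noncomputable def pt (x y : ℝ) : Pl := !₂[x, y]

@[simp] lemma pt_zero (x y : ℝ) : pt x y 0 = x := rfl

@[simp] lemma pt_one (x y : ℝ) : pt x y 1 = y := rfl

lemma pl_ext {p q : Pl} (h0 : p 0 = q 0) (h1 : p 1 = q 1) : p = q := by
  ext i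
  fin_cases i
  · exact h0
  · exact h1

/-- Reflection in the vertical axis. -/
noncomputable def th (p : Pl) : Pl := pt (-(p 0)) (p 1)

@[simp] lemma th_zero (p : Pl) : th p 0 = -(p 0) := rfl

@[simp] lemma th_one (p : Pl) : th p 1 = p 1 := rfl

@[simp] lemma th_th (p : Pl) : th (th p) = p := pl_ext (by simp) (by simp)

lemma th_axis {p : Pl} (h : p 0 = 0) : th p = p := pl_ext (by simp [h]) (by simp)

lemma isometry_th : Isometry th := by
  refine Isometry.of_dist_eq fun p q => ?_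
  rw [dist_pl, dist_pl, th_zero, th_zero, th_one, th_one]
  congr 1
  ring

lemma abs_zero_le_dist (p q : Pl) : |p 0 - q 0| ≤ dist p q := by
  rw [dist_pl]
  exact Real.abs_le_sqrt (by nlinarith [sq_nonneg (p 1 - q 1)])

lemma abs_one_le_dist (p q : Pl) : |p 1 - q 1| ≤ dist p q := by
  rw [dist_pl]
  exact Real.abs_le_sqrt (by nlinarith [sq_nonneg (p 0 - q 0)])

/-- A set inside a rectangle is bounded. -/
lemma bdd_of {X : Set Pl} {a b : ℝ} (h : ∀ p ∈ X, |p 0| ≤ a ∧ |p 1| ≤ b) :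
    Bornology.IsBounded X := by
  refine (Metric.isBounded_closedBall (x := (0 : Pl)) (r := |a| + |b|)).subset fun p hp => ?_
  obtain ⟨h0, h1⟩ := h p hp
  rw [Metric.mem_closedBall, dist_pl]
  refine Real.sqrt_le_iff.2 ⟨by positivity, ?_⟩
  have e0 : (p 0 - (0 : Pl) 0) ^ 2 = |p 0| ^ 2 := by simp
  have e1 : (p 1 - (0 : Pl) 1) ^ 2 = |p 1| ^ 2 := by simp
  rw [e0, e1]
  have k0 := h0.trans (le_abs_self a)
  have k1 := h1.trans (le_abs_self b)
  nlinarith [abs_nonneg (p 0), abs_nonneg (p 1), abs_nonneg a, abs_nonneg b]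

/-- The needle on the vertical axis. -/
def Nd (T : ℝ) : Set Pl := {p | p 0 = 0 ∧ |p 1| ≤ T}

lemma bdd_Nd (T : ℝ) : Bornology.IsBounded (Nd T) :=
  bdd_of (a := 0) (b := T) fun p hp => ⟨by simp [hp.1], hp.2⟩

/-- The triangle `-b y ≤ x ≤ a y`, `0 ≤ y ≤ h`. -/
def Wd (b a h : ℝ) : Set Pl := {p | -(b * p 1) ≤ p 0 ∧ p 0 ≤ a * p 1 ∧ 0 ≤ p 1 ∧ p 1 ≤ h}

lemma bdd_Wd (b a h : ℝ) : Bornology.IsBounded (Wd b a h) := by
  refine bdd_of (a := (|a| + |b|) * h) (b := h) fun p hp => ?_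
  obtain ⟨h1, h2, h3, h4⟩ := hp
  refine ⟨abs_le.2 ⟨?_, ?_⟩, by rwa [abs_of_nonneg h3]⟩
  · nlinarith [le_abs_self b, abs_nonneg a, abs_nonneg b, mul_nonneg (abs_nonneg a) (h3.trans h4),
      mul_le_mul_of_nonneg_right (le_abs_self b) h3, mul_le_mul_of_nonneg_left h4 (abs_nonneg b)]
  · nlinarith [le_abs_self a, abs_nonneg a, abs_nonneg b, mul_nonneg (abs_nonneg b) (h3.trans h4),
      mul_le_mul_of_nonneg_right (le_abs_self a) h3, mul_le_mul_of_nonneg_left h4 (abs_nonneg a)]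

lemma Wd_union {b a : ℝ} (ha : 0 ≤ a) (hab : a ≤ b) (h : ℝ) : Wd b a h ∪ Wd a b h = Wd b b h := by
  ext p
  simp only [Wd, mem_union, mem_setOf_eq]
  constructor
  · rintro (⟨h1, h2, h3, h4⟩ | ⟨h1, h2, h3, h4⟩)
    · exact ⟨h1, by nlinarith, h3, h4⟩
    · exact ⟨by nlinarith, h2, h3, h4⟩
  · rintro ⟨h1, h2, h3, h4⟩
    rcases le_total (p 0) 0 with h0 | h0
    · exact Or.inl ⟨h1, by nlinarith, h3, h4⟩
    · exact Or.inr ⟨by nlinarith, h2, h3, h4⟩

lemma Wd_inter {b a : ℝ} (hab : a ≤ b) (h : ℝ) : Wd b a h ∩ Wd a b h = Wd a a h := by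
  ext p
  simp only [Wd, mem_inter_iff, mem_setOf_eq]
  constructor
  · rintro ⟨⟨_, h2, h3, h4⟩, ⟨h5, _⟩⟩
    exact ⟨h5, h2, h3, h4⟩
  · rintro ⟨h1, h2, h3, h4⟩
    exact ⟨⟨by nlinarith, h2, h3, h4⟩, h1, by nlinarith, h3, h4⟩

/-- The energy form on finitely supported weights. -/
noncomputable def E : (Pl →₀ ℝ) →ₗ[ℝ] (Pl →₀ ℝ) →ₗ[ℝ] ℝ :=
  Finsupp.linearCombination ℝ
    (fun p => Finsupp.linearCombination ℝ (fun q : Pl => exp (-dist p q)))

@[simp] lemma E_single (p q : Pl) (a b : ℝ) :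
    E (Finsupp.single p a) (Finsupp.single q b) = a * b * exp (-dist p q) := by
  simp [E, mul_assoc]

/-- Total mass. -/
noncomputable def ms : (Pl →₀ ℝ) →ₗ[ℝ] ℝ := Finsupp.linearCombination ℝ (fun _ => (1 : ℝ))

@[simp] lemma ms_single (p : Pl) (a : ℝ) : ms (Finsupp.single p a) = a := by simp [ms]

/-- Reflection of weights. -/
noncomputable def Th : (Pl →₀ ℝ) →ₗ[ℝ] (Pl →₀ ℝ) := Finsupp.lmapDomain ℝ ℝ th

@[simp] lemma Th_single (p : Pl) (a : ℝ) : Th (Finsupp.single p a) = Finsupp.single (th p) a := by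
  simp [Th]

/-- The kernel after a Fourier transform along the axis. -/
noncomputable def cc (μ s : ℝ) : ℝ :=
  ∫ v in Ioi (0:ℝ), v * exp (-(μ ^ 2 / 2) * v ^ 2) * exp (-(s ^ 2 / (2 * v ^ 2)))
end

section
/-! Locality lemmas in the plane, derived from the general locality bound. -/

lemma M_empty : M ∅ = 0 := by
  have h0 : Hedge.magF (∅ : Finset Pl) = 0 := by simp [Hedge.magF]
  refine le_antisymm (le_of_forall_pos_le_add fun ε hε => ?_) ?_
  · obtain ⟨F, hF, h⟩ := Hedge.exists_lt_magF (∅ : Set Pl) hε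
    have e : F = ∅ := by simpa using hF
    rw [e, h0] at h
    unfold M
    linarith
  · exact h0.symm.le.trans (Hedge.magF_le_mag Bornology.isBounded_empty (by simp))

lemma M_nonneg {X : Set Pl} (hX : Bornology.IsBounded X) : 0 ≤ M X := by
  exact (Hedge.magF_nonneg (∅ : Finset Pl)).trans (Hedge.magF_le_mag hX (by simp))

lemma M_mono {X Y : Set Pl} (hY : Bornology.IsBounded Y) (h : X ⊆ Y) : M X ≤ M Y := by
  refine le_of_forall_pos_le_add fun ε hε => ?_
  obtain ⟨F, hF, k⟩ := Hedge.exists_lt_magF X hε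
  have := Hedge.magF_le_mag hY (hF.trans h)
  unfold M
  linarith

lemma box_magF {f : Pl → Pl} (hf : Isometry f) (F : Finset Pl) :
    Hedge.magF (F.image f) = Hedge.magF F := by
  let e : F ≃ F.image f := Equiv.ofBijective (fun x => ⟨f x, Finset.mem_image_of_mem f x.2⟩)
    ⟨fun x y h => Subtype.ext (hf.injective (congrArg Subtype.val h)), fun y => by
      obtain ⟨x, hx, h⟩ := Finset.mem_image.1 y.2
      exact ⟨⟨x, hx⟩, Subtype.ext h⟩⟩
  have h : Hedge.Z F = (Hedge.Z (F.image f)).submatrix e e := by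
    ext x y
    simp [Hedge.Z, e, hf.dist_eq]
  unfold Hedge.magF
  rw [h, Matrix.inv_submatrix_equiv, ← e.sum_comp]
  refine Finset.sum_congr rfl fun x _ => ?_
  rw [← e.sum_comp]
  rfl

lemma M_iso {f : Pl → Pl} (hf : Isometry f) {X : Set Pl} (hX : Bornology.IsBounded X) :
    M (f '' X) = M X := by
  have hY : Bornology.IsBounded (f '' X) := hf.lipschitz.isBounded_image hX
  refine le_antisymm (le_of_forall_pos_le_add fun ε hε => ?_)
    (le_of_forall_pos_le_add fun ε hε => ?_)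
  · obtain ⟨F, hF, k⟩ := Hedge.exists_lt_magF (f '' X) hε
    obtain ⟨F', h1, rfl⟩ := Finset.subset_set_image_iff.1 hF
    rw [box_magF hf] at k
    have := Hedge.magF_le_mag hX h1
    unfold M
    linarith
  · obtain ⟨F, hF, k⟩ := Hedge.exists_lt_magF X hε
    have := Hedge.magF_le_mag hY (F := F.image f) (by
      rw [Finset.coe_image]
      exact image_mono hF)
    rw [box_magF hf] at this
    unfold M
    linarith

lemma df_comm (A B : Set Pl) : df A B = df B A := by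
  unfold df
  rw [union_comm, inter_comm]
  ring

lemma box_int (g h : ℝ → ℝ) : ∫ p : Pl, g (p 0) * h (p 1) = (∫ x, g x) * ∫ y, h y := by
  have e := (PiLp.volume_preserving_ofLp (Fin 2)).integral_comp
    (MeasurableEquiv.toLp 2 (Fin 2 → ℝ)).symm.measurableEmbedding
    (fun q : Fin 2 → ℝ => ∏ i, ![g, h] i (q i))
  rw [integral_fintype_prod_volume_eq_prod] at e
  simpa [Fin.prod_univ_two] using e

lemma box_dI {t x y : ℝ} (h0 : 0 ≤ y) (h1 : y ≤ t) : dI t x ≤ |x - y| := by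
  have a := le_abs_self (x - y)
  have b := neg_le_abs (x - y)
  have c := abs_nonneg (x - y)
  unfold dI
  rcases max_cases (-x) 0 with h | h <;> rcases max_cases (x - t) 0 with k | k <;>
    linarith [h.1, h.2, k.1, k.2]

lemma box_dI2 {t x y z : ℝ} (h1 : y ≤ t) (h0 : 0 ≤ z) : dI t x ≤ |x - y| + |x - z| := by
  have a : max (-x) 0 ≤ |x - z| := max_le (by linarith [neg_le_abs (x - z)]) (abs_nonneg _)
  have b : max (x - t) 0 ≤ |x - y| := max_le (by linarith [le_abs_self (x - y)]) (abs_nonneg _)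
  unfold dI
  linarith

lemma box : ∃ c : ℝ, 0 < c ∧ ∃ C : ℝ, 0 ≤ C ∧ ∀ A B : Set Pl, Bornology.IsBounded A →
    Bornology.IsBounded B → ∀ x0 y0 a b δ : ℝ, 0 ≤ a → 0 ≤ b →
    (∀ p : Pl, ∀ u ∈ A \ B, ∀ v ∈ B \ A,
      δ + (dI a (p 0 - x0) + dI b (p 1 - y0)) / 4 ≤ dist p u + dist p v) →
    |df A B| ≤ C * (1 + a) * (1 + b) * exp (-(c * δ)) := by
  obtain ⟨c, hc, C, hC, H⟩ := Hedge.set_bound (V := Pl)
  refine ⟨c, hc, C * (1 + 8 / c) ^ 2, by positivity, fun A B hA hB x0 y0 a b δ ha hb hs => ?_⟩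
  by_cases h : A \ B = ∅ ∨ B \ A = ∅
  · have : df A B = 0 := Hedge.defect_zero h
    rw [this, abs_zero]
    positivity
  push Not at h
  have hl : 0 < c / 4 := by positivity
  have e := box_int (fun x => exp (-(c / 4) * dI a (x - x0)))
    (fun y => exp (-(c / 4) * dI b (y - y0)))
  rw [integral_sub_right_eq_self (fun x => exp (-(c / 4) * dI a x)),
    integral_sub_right_eq_self (fun x => exp (-(c / 4) * dI b x)), integral_exp_dI ha hl,
    integral_exp_dI hb hl] at e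
  have hi : Integrable fun p : Pl =>
      exp (-(c / 4) * dI a (p 0 - x0)) * exp (-(c / 4) * dI b (p 1 - y0)) :=
    Integrable.of_integral_ne_zero (by rw [e]; positivity)
  have k : ∫ p : Pl, exp (-(c * (Metric.infDist p (A \ B) + Metric.infDist p (B \ A)))) ≤
      ∫ p : Pl, exp (-(c * δ)) *
        (exp (-(c / 4) * dI a (p 0 - x0)) * exp (-(c / 4) * dI b (p 1 - y0))) := by
    refine integral_mono_of_nonneg (Eventually.of_forall fun p => (exp_pos _).le)
      (hi.const_mul _) (Eventually.of_forall fun p => ?_)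
    have k1 : δ + (dI a (p 0 - x0) + dI b (p 1 - y0)) / 4 - Metric.infDist p (B \ A) ≤
        Metric.infDist p (A \ B) := by
      refine (Metric.le_infDist h.1).2 fun u hu => ?_
      have : δ + (dI a (p 0 - x0) + dI b (p 1 - y0)) / 4 - dist p u ≤
          Metric.infDist p (B \ A) :=
        (Metric.le_infDist h.2).2 fun v hv => by linarith [hs p u hu v hv]
      linarith
    simp only
    rw [← exp_add, ← exp_add]
    apply exp_le_exp.2
    have := mul_le_mul_of_nonneg_left k1 hc.le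
    linarith
  rw [integral_const_mul, e] at k
  have e8 : 2 / (c / 4) = 8 / c := by field_simp; norm_num
  rw [e8] at k
  have h8 : 0 ≤ 8 / c := by positivity
  have k2 : (a + 8 / c) * (b + 8 / c) ≤ ((1 + 8 / c) * (1 + a)) * ((1 + 8 / c) * (1 + b)) :=
    mul_le_mul (by nlinarith [mul_nonneg h8 ha]) (by nlinarith [mul_nonneg h8 hb])
      (by positivity) (by positivity)
  calc |df A B| ≤ _ := H A B hA hB
    _ ≤ C * (exp (-(c * δ)) * (((1 + 8 / c) * (1 + a)) * ((1 + 8 / c) * (1 + b)))) :=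
      mul_le_mul_of_nonneg_left (k.trans (mul_le_mul_of_nonneg_left k2 (exp_pos _).le)) hC
    _ = _ := by ring

lemma cut : ∃ C : ℝ, 0 ≤ C ∧ ∀ X : Set Pl, Bornology.IsBounded X → ∀ h a : ℝ, 0 ≤ a →
    ((∀ p ∈ X, p 1 ≤ h → |p 0| ≤ a) ∨ (∀ p ∈ X, h < p 1 → |p 0| ≤ a)) →
    |M X - M (X ∩ {p | p 1 ≤ h}) - M (X ∩ {p | h < p 1})| ≤ C * (1 + a) := by
  obtain ⟨c, -, C, hC, H⟩ := box
  refine ⟨2 * C, by positivity, fun X hX h a ha hs => ?_⟩
  have k := H (X ∩ {p | p 1 ≤ h}) (X ∩ {p | h < p 1}) (hX.subset inter_subset_left)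
    (hX.subset inter_subset_left) (-a) h (2 * a) 0 0 (by positivity) le_rfl fun p u hu v hv => by
      have u1 : u 1 ≤ h := hu.1.2
      have v1 : h < v 1 := hv.1.2
      have k1 := box_dI2 (t := 0) (x := p 1 - h) (y := u 1 - h) (z := v 1 - h) (by linarith)
        (by linarith)
      rw [sub_sub_sub_cancel_right, sub_sub_sub_cancel_right] at k1
      have k2 : ∀ w : Pl, |w 0| ≤ a → dI (2 * a) (p 0 - -a) ≤ dist p w := fun w hw => by
        have := box_dI (t := 2 * a) (x := p 0 - -a) (y := w 0 - -a)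
          (by linarith [(abs_le.1 hw).1]) (by linarith [(abs_le.1 hw).2])
        rw [sub_sub_sub_cancel_right] at this
        exact this.trans (abs_zero_le_dist p w)
      have d1 := abs_one_le_dist p u
      have d2 := abs_one_le_dist p v
      have n1 := dist_nonneg (x := p) (y := u)
      have n2 := dist_nonneg (x := p) (y := v)
      rcases hs with hs | hs
      · linarith [k2 u (hs u hu.1.1 u1)]
      · linarith [k2 v (hs v hv.1.1 v1)]
  have e1 : X ∩ {p | p 1 ≤ h} ∪ X ∩ {p | h < p 1} = X := by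
    ext p
    simp only [mem_union, mem_inter_iff, mem_ofPred_eq]
    exact ⟨fun k => k.elim And.left And.left,
      fun k => (le_or_gt (p 1) h).imp (fun e => ⟨k, e⟩) fun e => ⟨k, e⟩⟩
  have e2 : X ∩ {p | p 1 ≤ h} ∩ (X ∩ {p | h < p 1}) = ∅ :=
    eq_empty_of_forall_notMem fun p k => absurd (show h < p 1 from k.2.2) (not_lt.2 k.1.2)
  unfold df at k
  rw [e1, e2, M_empty, add_zero, mul_zero, neg_zero, exp_zero] at k
  nlinarith

lemma vsep : ∃ c : ℝ, 0 < c ∧ ∃ C : ℝ, 0 ≤ C ∧ ∀ A B : Set Pl, Bornology.IsBounded A →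
    Bornology.IsBounded B → ∀ x0 W h : ℝ, 0 ≤ W → 0 ≤ h → (∀ u ∈ A ∪ B, 0 ≤ u 1 ∧ u 1 ≤ h) →
    (∀ u ∈ A \ B, u 0 ≤ x0) → (∀ v ∈ B \ A, x0 + W ≤ v 0) →
    |df A B| ≤ C * (1 + W) * (1 + h) * exp (-(c * W)) := by
  obtain ⟨c, hc, C, hC, H⟩ := box
  refine ⟨c / 2, by positivity, C, hC, fun A B hA hB x0 W h hW hh hs h1 h2 => ?_⟩
  have k := H A B hA hB x0 0 W h (W / 2) hW hh fun p u hu v hv => by
    have u0 := h1 u hu
    have v0 := h2 v hv
    have k1 := box_dI2 (t := W) (x := p 0 - x0) (y := u 0 - x0) (z := v 0 - x0) (by linarith)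
      (by linarith)
    rw [sub_sub_sub_cancel_right, sub_sub_sub_cancel_right] at k1
    have k2 := box_dI2 (t := h) (x := p 1) (hs u (Or.inl hu.1)).2 (hs v (Or.inr hv.1)).1
    rw [sub_zero]
    linarith [abs_zero_le_dist p u, abs_zero_le_dist p v, abs_one_le_dist p u,
      abs_one_le_dist p v, le_abs_self (p 0 - u 0), neg_le_abs (p 0 - v 0)]
  rwa [show c * (W / 2) = c / 2 * W by ring] at k

lemma far {ρ ε : ℝ} (hρ : 0 ≤ ρ) (hε : 0 < ε) : ∃ T0 : ℝ, ρ ≤ T0 ∧ ∀ A B : Set Pl,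
    Bornology.IsBounded A → Bornology.IsBounded B → (∀ u ∈ A \ B, ‖u‖ ≤ ρ) →
    (∀ v ∈ B \ A, T0 ≤ ‖v‖) → |df A B| ≤ ε := by
  obtain ⟨c, hc, C, hC, H⟩ := box
  obtain ⟨K, hK⟩ : ∃ K, K = C * (1 + 2 * ρ) * (1 + 2 * ρ) := ⟨_, rfl⟩
  have hK0 : 0 ≤ K := by rw [hK]; positivity
  have hs : 0 ≤ K / ε / c := by positivity
  refine ⟨ρ + 2 * (K / ε / c), by linarith, fun A B hA hB h1 h2 => ?_⟩
  have k := H A B hA hB (-ρ) (-ρ) (2 * ρ) (2 * ρ) (K / ε / c) (by positivity) (by positivity)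
    fun p u hu v hv => by
      have u0 := h1 u hu
      have v0 := h2 v hv
      have a0 := abs_zero_le_dist u 0
      have a1 := abs_one_le_dist u 0
      rw [dist_zero_right, PiLp.zero_apply, sub_zero, abs_le] at a0 a1
      have k1 := box_dI (t := 2 * ρ) (x := p 0 - -ρ) (y := u 0 - -ρ) (by linarith [a0.1])
        (by linarith [a0.2])
      have k2 := box_dI (t := 2 * ρ) (x := p 1 - -ρ) (y := u 1 - -ρ) (by linarith [a1.1])
        (by linarith [a1.2])
      rw [sub_sub_sub_cancel_right] at k1 k2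
      have k3 := norm_sub_norm_le v u
      rw [← dist_eq_norm] at k3
      linarith [abs_zero_le_dist p u, abs_one_le_dist p u, dist_triangle_left v u p,
        dist_nonneg (x := p) (y := v)]
  rw [← hK, mul_div_cancel₀ _ hc.ne'] at k
  refine k.trans ?_
  rw [exp_neg, ← div_eq_mul_inv, div_le_iff₀ (exp_pos _)]
  have k4 := mul_le_mul_of_nonneg_left (add_one_le_exp (K / ε)) hε.le
  rw [mul_add, mul_div_cancel₀ _ hε.ne'] at k4
  linarith
end

section
/-! The defect near the tip of a thin overlap grows linearly in the height. -/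

lemma tip_bdd (a b h : ℝ) : Bornology.IsBounded (Rect a b h) := (isCompact_Rect a b h).isBounded

lemma M_Rect_shift (a s h : ℝ) : M (Rect a (a + s) h) = M (Rect 0 s h) := by
  have hf : Isometry (fun p : Pl => pt (p 0 + a) (p 1)) := by
    refine Isometry.of_dist_eq fun p q => ?_
    rw [dist_pl, dist_pl, pt_zero, pt_zero, pt_one, pt_one]
    congr 1
    ring
  rw [← M_iso hf (tip_bdd 0 s h)]
  congr 1
  ext p
  constructor
  · rintro ⟨h1, h2, h3, h4⟩
    refine ⟨pt (p 0 - a) (p 1), ⟨?_, ?_, ?_, ?_⟩, pl_ext (by simp) (by simp)⟩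
    · rw [pt_zero]; linarith
    · rw [pt_zero]; linarith
    · rwa [pt_one]
    · rwa [pt_one]
  · rintro ⟨q, ⟨h1, h2, h3, h4⟩, rfl⟩
    refine ⟨?_, ?_, ?_, ?_⟩
    · rw [pt_zero]; linarith
    · rw [pt_zero]; linarith
    · rwa [pt_one]
    · rwa [pt_one]

lemma tip_shift {a b s : ℝ} (e : b = a + s) (h : ℝ) : M (Rect a b h) = M (Rect 0 s h) := by
  rw [e, M_Rect_shift]

lemma slope : ∃ c : ℝ, 0 < c ∧ ∃ C : ℝ, 0 ≤ C ∧ ∀ x l h : ℝ, 0 < x → 0 < l → 0 < h →
    l * h / (2 * π) - C * (1 + x) * (1 + h) * exp (-(c * x))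
      ≤ M (Rect 0 (x + l) h) - M (Rect 0 x h) := by
  obtain ⟨c, hc, C, hC, H⟩ := vsep
  refine ⟨c, hc, C, hC, fun x l h hx hl hh => ?_⟩
  set err := C * (1 + x) * (1 + h) * exp (-(c * x)) with herr
  set D := M (Rect 0 (x + l) h) - M (Rect 0 x h) with hD
  have step : ∀ j : ℕ, M (Rect 0 (x + (j + 1) * l) h) ≤ M (Rect 0 (x + j * l) h) + (D + err) := by
    intro j
    have hj : 0 ≤ (j : ℝ) * l := by positivity
    have hu : Rect (-(j * l)) x h ∪ Rect 0 (x + l) h = Rect (-(j * l)) (x + l) h := by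
      ext p
      constructor
      · rintro (⟨h1, h2, h3, h4⟩ | ⟨h1, h2, h3, h4⟩)
        · exact ⟨h1, by linarith, h3, h4⟩
        · exact ⟨by linarith, h2, h3, h4⟩
      · rintro ⟨h1, h2, h3, h4⟩
        rcases le_total (p 0) 0 with h0 | h0
        · exact Or.inl ⟨h1, by linarith, h3, h4⟩
        · exact Or.inr ⟨h0, h2, h3, h4⟩
    have hi : Rect (-(j * l)) x h ∩ Rect 0 (x + l) h = Rect 0 x h := by
      ext p
      constructor
      · rintro ⟨⟨_, h2, h3, h4⟩, h5, _⟩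
        exact ⟨h5, h2, h3, h4⟩
      · rintro ⟨h1, h2, h3, h4⟩
        exact ⟨⟨by linarith, h2, h3, h4⟩, h1, by linarith, h3, h4⟩
    have k := H (Rect (-(j * l)) x h) (Rect 0 (x + l) h) (tip_bdd _ _ _) (tip_bdd _ _ _) 0 x h
      hx.le hh.le (by rw [hu]; exact fun u hu => hu.2.2)
      (fun u hu => by
        obtain ⟨⟨_, h2, h3, h4⟩, h5⟩ := hu
        by_contra h6
        exact h5 ⟨(not_le.1 h6).le, by linarith, h3, h4⟩)
      (fun v hv => by
        obtain ⟨⟨h1, _, h3, h4⟩, h5⟩ := hv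
        by_contra h6
        exact h5 ⟨by linarith, by linarith [not_le.1 h6], h3, h4⟩)
    rw [df, hu, hi, tip_shift (s := x + (j + 1) * l) (by ring),
      tip_shift (a := -(j * l)) (b := x) (s := x + j * l) (by ring)] at k
    linarith [(abs_le.1 k).2]
  have sum : ∀ m : ℕ, M (Rect 0 (x + m * l) h) ≤ M (Rect 0 x h) + m * (D + err) := by
    intro m
    induction m with
    | zero => simp
    | succ m ih =>
      have := step m
      push_cast
      linarith
  by_contra hn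
  have hpos : 0 < l * h / (2 * π) - err - D := by linarith [not_le.1 hn]
  obtain ⟨m, hm⟩ := exists_nat_gt (M (Rect 0 x h) / (l * h / (2 * π) - err - D))
  rw [div_lt_iff₀ hpos] at hm
  have hml : 0 ≤ (m : ℝ) * l := by positivity
  have h1 := rect_lower (s := x + m * l) (d := h) (by linarith) hh
  rw [← M_eq] at h1
  have h2 : (x + m * l) * h / (2 * π) = x * h / (2 * π) + m * (l * h / (2 * π)) := by ring
  have h3 : 0 ≤ x * h / (2 * π) := by positivity
  have h4 := sum m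
  nlinarith

lemma tip_small {c : ℝ} (hc : 0 < c) (C : ℝ) :
    ∀ᶠ w : ℝ in atTop, C * (1 + w) * exp (-(c * w)) ≤ 1 / 50000 := by
  have t : Tendsto (fun w : ℝ => c * w) atTop atTop := tendsto_id.const_mul_atTop hc
  have t0 := (tendsto_pow_mul_exp_neg_atTop_nhds_zero 0).comp t
  have t1 := (tendsto_pow_mul_exp_neg_atTop_nhds_zero 1).comp t
  have t2 := (t0.add (t1.const_mul (1 / c))).const_mul C
  simp only [mul_zero, add_zero] at t2
  refine (t2.eventually (ge_mem_nhds (by norm_num : (0 : ℝ) < 1 / 50000))).mono fun w hw => ?_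
  refine le_of_eq_of_le ?_ hw
  simp only [Function.comp]
  field_simp

theorem tip {β : ℝ} (hβ : 0 < β) : ∃ K : ℝ, ∀ᶠ h : ℝ in atTop,
    h / 1000 - K ≤ df (Wd β (1 / 1000 / h) h) (Wd (1 / 1000 / h) β h) := by
  obtain ⟨c, hc, C, hC, H⟩ := vsep
  obtain ⟨c', hc', C', hC', S⟩ := slope
  obtain ⟨C₂, hC₂, T⟩ := cut
  have ta : Tendsto (fun w : ℝ => w + 1 / 1000) atTop atTop :=
    tendsto_atTop_add_const_right _ _ tendsto_id
  obtain ⟨w, w1, w2, w3, w4⟩ := ((tip_small hc C).and ((ta.eventually (tip_small hc' C')).and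
    ((ta.eventually NN_le).and (eventually_ge_atTop (1 : ℝ))))).exists
  refine ⟨M (Rect (-w) w (w / β)) + C₂ * (1 + w) + 1 +
    313 / 100 * (w + 1 / 1000 + 313 / 100) / (2 * π), ?_⟩
  filter_upwards [NN_le, eventually_ge_atTop (1 : ℝ), eventually_ge_atTop (1 / 1000 / β)]
    with h n1 h1 h2
  have h0 : 0 < h := by linarith
  set α := 1 / 1000 / h with hα
  have a0 : 0 ≤ α := by positivity
  have ah : α * h = 1 / 1000 := by rw [hα]; field_simp
  have ab : α ≤ β := by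
    rw [hα, div_le_iff₀ h0]
    rw [div_le_iff₀ hβ] at h2
    linarith
  have ay : ∀ y : ℝ, 0 ≤ y → y ≤ h → 0 ≤ α * y ∧ α * y ≤ 1 / 1000 ∧ α * y ≤ β * y :=
    fun y hy hy' => ⟨by positivity, ah ▸ mul_le_mul_of_nonneg_left hy' a0,
      mul_le_mul_of_nonneg_right ab hy⟩
  have bU := bdd_Wd β β h
  set P : Set Pl := Wd β β h ∩ {p | -w ≤ p 0} with hP
  set Q : Set Pl := Wd β β h ∩ {p | -w ≤ p 0 ∧ p 0 ≤ w} with hQ
  have bP : Bornology.IsBounded P := bU.subset inter_subset_left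
  have bQ : Bornology.IsBounded Q := bU.subset inter_subset_left
  have u1 : Wd β α h ∪ P = Wd β β h := by
    ext p
    constructor
    · rintro (⟨k1, k2, k3, k4⟩ | k)
      · exact ⟨k1, k2.trans (ay _ k3 k4).2.2, k3, k4⟩
      · exact k.1
    · rintro ⟨k1, k2, k3, k4⟩
      rcases le_total (p 0) 0 with k0 | k0
      · exact Or.inl ⟨k1, k0.trans (ay _ k3 k4).1, k3, k4⟩
      · exact Or.inr ⟨⟨k1, k2, k3, k4⟩, show -w ≤ p 0 by linarith⟩
  have u2 : Q ∪ Wd α β h = P := by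
    ext p
    constructor
    · rintro (k | ⟨k1, k2, k3, k4⟩)
      · exact ⟨k.1, k.2.1⟩
      · obtain ⟨j1, j2, j3⟩ := ay _ k3 k4
        exact ⟨⟨by linarith, k2, k3, k4⟩, show -w ≤ p 0 by linarith⟩
    · rintro ⟨⟨k1, k2, k3, k4⟩, k5⟩
      rcases le_total (p 0) 0 with k0 | k0
      · exact Or.inl ⟨⟨k1, k2, k3, k4⟩, k5, by linarith⟩
      · exact Or.inr ⟨by linarith [(ay _ k3 k4).1], k2, k3, k4⟩
  have e1 := H (Wd β α h) P (bdd_Wd _ _ _) bP (-w) w h (by linarith) h0.le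
    (by rw [u1]; exact fun u hu => hu.2.2)
    (fun u hu => by
      obtain ⟨⟨k1, k2, k3, k4⟩, k5⟩ := hu
      by_contra k6
      exact k5 ⟨⟨k1, k2.trans (ay _ k3 k4).2.2, k3, k4⟩, (not_le.1 k6).le⟩)
    (fun v hv => by
      obtain ⟨⟨⟨k1, _, k3, k4⟩, _⟩, k5⟩ := hv
      by_contra k6
      exact k5 ⟨k1, by linarith [not_le.1 k6, (ay _ k3 k4).1], k3, k4⟩)
  have e2 := H Q (Wd α β h) bQ (bdd_Wd _ _ _) 0 w h (by linarith) h0.le
    (by rw [u2]; exact fun u hu => hu.1.2.2)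
    (fun u hu => by
      obtain ⟨⟨⟨_, k2, k3, k4⟩, _⟩, k5⟩ := hu
      by_contra k6
      exact k5 ⟨by linarith [not_le.1 k6, (ay _ k3 k4).1], k2, k3, k4⟩)
    (fun v hv => by
      obtain ⟨⟨k1, k2, k3, k4⟩, k5⟩ := hv
      obtain ⟨j1, j2, j3⟩ := ay _ k3 k4
      by_contra k6
      exact k5 ⟨⟨by linarith, k2, k3, k4⟩, by linarith, by linarith [not_le.1 k6]⟩)
  rw [df, u1] at e1
  rw [df, u2] at e2
  have m1 : M (Wd β α h ∩ P) ≤ M (Rect 0 (w + 1 / 1000) h) := by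
    rw [← M_Rect_shift (-w)]
    refine M_mono (tip_bdd _ _ _) ?_
    rintro p ⟨⟨_, k2, k3, k4⟩, _, k5⟩
    exact ⟨k5, by linarith [(ay _ k3 k4).2.1], k3, k4⟩
  have m2 : M (Q ∩ Wd α β h) ≤ M (Rect 0 (w + 1 / 1000) h) := by
    rw [← M_Rect_shift (-(1 / 1000))]
    refine M_mono (tip_bdd _ _ _) ?_
    rintro p ⟨⟨_, _, k5⟩, k1, _, k3, k4⟩
    exact ⟨by linarith [(ay _ k3 k4).2.1], by linarith, k3, k4⟩
  have m3 : h / 2 ≤ M (Wd α α h) := by
    refine (segment_lower (a := 0) h0).trans ?_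
    rw [← M_eq]
    refine M_mono (bdd_Wd _ _ _) ?_
    rintro p ⟨k1, k2, k3, k4⟩
    exact ⟨by linarith [(ay _ k3 k4).1], by linarith [(ay _ k3 k4).1], k3, k4⟩
  have e3 := T (Rect (-w) w h) (tip_bdd _ _ _) (w / β) w (by linarith)
    (Or.inl fun p hp _ => abs_le.2 ⟨hp.1, hp.2.1⟩)
  have m4 : M (Rect (-w) w h ∩ {p | p 1 ≤ w / β}) ≤ M (Rect (-w) w (w / β)) :=
    M_mono (tip_bdd _ _ _) fun p hp => ⟨hp.1.1, hp.1.2.1, hp.1.2.2.1, hp.2⟩
  have m5 : M (Rect (-w) w h ∩ {p | w / β < p 1}) ≤ M Q := by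
    refine M_mono bQ ?_
    rintro p ⟨⟨k1, k2, k3, k4⟩, k5⟩
    have k6 : w < p 1 * β := (div_lt_iff₀ hβ).1 k5
    exact ⟨⟨by linarith, by linarith, k3, k4⟩, k1, k2⟩
  rw [tip_shift (s := w + 1 / 1000 + (w - 1 / 1000)) (by ring)] at e3
  have e4 := S (w + 1 / 1000) (w - 1 / 1000) h (by linarith) (by linarith) h0
  have m6 : M (Rect 0 (w + 1 / 1000) h) ≤
      (w + 1 / 1000 + 313 / 100) * (h + 313 / 100) / (2 * π) := by
    have := mag_le (a := 0) (s := w + 1 / 1000) (d := h) (by linarith) h0.le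
    rw [zero_add, ← M_eq] at this
    refine this.trans ?_
    have hpi := pi_pos
    gcongr
    exact NN_nonneg _
  have r1 : C * (1 + w) * (1 + h) * exp (-(c * w)) ≤ 1 / 50000 * (1 + h) := by
    have := mul_le_mul_of_nonneg_right w1 (show 0 ≤ 1 + h by linarith)
    linarith
  have r2 : C' * (1 + (w + 1 / 1000)) * (1 + h) * exp (-(c' * (w + 1 / 1000))) ≤
      1 / 50000 * (1 + h) := by
    have := mul_le_mul_of_nonneg_right w2 (show 0 ≤ 1 + h by linarith)
    linarith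
  have r3 : (w - 1 / 1000) * h / (2 * π) - (w + 1 / 1000 + 313 / 100) * (h + 313 / 100) / (2 * π) =
      -(3132 / 1000 * h / (2 * π)) - 313 / 100 * (w + 1 / 1000 + 313 / 100) / (2 * π) := by ring
  have r4 : 3132 / 1000 * h / (2 * π) ≤ 4989 / 10000 * h := by
    rw [div_le_iff₀ (by positivity)]
    nlinarith [pi_gt_d4]
  rw [df, Wd_union a0 ab, Wd_inter ab]
  linarith [(abs_le.1 e1).1, (abs_le.1 e2).1, (abs_le.1 e3).2]
end

section
/-! Conditional negativity of the reflected kernel at one frequency. -/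

lemma cn_exp_le (s v : ℝ) : exp (-(s ^ 2 / (2 * v ^ 2))) ≤ 1 :=
  exp_le_one_iff.2 (neg_nonpos.2 (by positivity))

lemma cn_int_lin {μ : ℝ} (hμ : 0 < μ) :
    IntegrableOn (fun v : ℝ => v * exp (-(μ ^ 2 / 2) * v ^ 2)) (Ioi 0) :=
  (integrable_mul_exp_neg_mul_sq (b := μ ^ 2 / 2) (by positivity)).integrableOn

lemma cn_int_cc {μ : ℝ} (hμ : 0 < μ) (s : ℝ) : IntegrableOn
    (fun v : ℝ => v * exp (-(μ ^ 2 / 2) * v ^ 2) * exp (-(s ^ 2 / (2 * v ^ 2)))) (Ioi 0) := by
  refine Integrable.mul_bdd (c := 1) (cn_int_lin hμ) (Measurable.aestronglyMeasurable (by fun_prop))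
    (Eventually.of_forall fun v => ?_)
  rw [Real.norm_of_nonneg (exp_pos _).le]
  exact cn_exp_le s v

lemma cn_int_gauss {m : ℝ} (hm : 0 < m) (s : ℝ) : IntegrableOn
    (fun v : ℝ => exp (-(m ^ 2 / 2) * v ^ 2) * exp (-(s ^ 2 / (2 * v ^ 2)))) (Ioi 0) := by
  refine Integrable.mul_bdd (c := 1)
    (integrable_exp_neg_mul_sq (b := m ^ 2 / 2) (by positivity)).integrableOn
    (Measurable.aestronglyMeasurable (by fun_prop)) (Eventually.of_forall fun v => ?_)
  rw [Real.norm_of_nonneg (exp_pos _).le]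
  exact cn_exp_le s v

lemma cc_nonneg (μ s : ℝ) : 0 ≤ cc μ s := by
  refine setIntegral_nonneg measurableSet_Ioi fun v hv => ?_
  have : (0:ℝ) < v := hv
  positivity

lemma cn_lin_val {μ : ℝ} (hμ : 0 < μ) :
    ∫ v in Ioi (0:ℝ), v * exp (-(μ ^ 2 / 2) * v ^ 2) = 1 / μ ^ 2 := by
  have h := integral_rpow_mul_exp_neg_mul_rpow (p := 2) (q := 1) (b := μ ^ 2 / 2) (by norm_num)
    (by norm_num) (by positivity)
  have e1 : (-((1:ℝ) + 1) / 2) = -1 := by norm_num
  have e2 : (((1:ℝ) + 1) / 2) = 1 := by norm_num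
  rw [e1, e2, Real.Gamma_one, Real.rpow_neg_one] at h
  simp only [Real.rpow_one, Real.rpow_two] at h
  rw [h]
  field_simp

lemma cc_zero {μ : ℝ} (hμ : 0 < μ) : cc μ 0 = 1 / μ ^ 2 := by
  rw [← cn_lin_val hμ, cc]
  simp

lemma cc_le {μ : ℝ} (hμ : 0 < μ) (s : ℝ) : cc μ s ≤ 1 / μ ^ 2 := by
  rw [← cn_lin_val hμ, cc]
  refine setIntegral_mono_on (cn_int_cc hμ s) (cn_int_lin hμ) measurableSet_Ioi fun v hv => ?_
  have : (0:ℝ) < v := hv
  exact mul_le_of_le_one_right (by positivity) (cn_exp_le s v)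

/-- The kernel of the subordination of the linear function. -/
noncomputable def cnK (u : ℝ) : ℝ := (1 - exp (-(u ^ 2 / 2))) / u ^ 2

lemma cnK_nonneg (u : ℝ) : 0 ≤ cnK u :=
  div_nonneg (sub_nonneg.2 (exp_le_one_iff.2 (neg_nonpos.2 (by positivity)))) (sq_nonneg u)

lemma cnK_pos {u : ℝ} (hu : 0 < u) : 0 < cnK u :=
  div_pos (sub_pos.2 (exp_lt_one_iff.2 (neg_lt_zero.2 (by positivity)))) (by positivity)

lemma cnK_le (u : ℝ) : cnK u ≤ 2 * (1 + u ^ 2)⁻¹ := by
  rcases eq_or_ne u 0 with rfl | hu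
  · simp [cnK]
  have h0 : 0 < u ^ 2 := by positivity
  have h1 := add_one_le_exp (-(u ^ 2 / 2))
  have h2 := exp_pos (-(u ^ 2 / 2))
  rw [cnK, ← div_eq_mul_inv, div_le_div_iff₀ h0 (by positivity)]
  rcases le_total (u ^ 2) 1 with h | h
  · nlinarith
  · nlinarith

lemma measurable_cnK : Measurable cnK := by unfold cnK; fun_prop

lemma integrable_cnK : Integrable cnK := by
  refine (integrable_inv_one_add_sq.const_mul 2).mono' measurable_cnK.aestronglyMeasurable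
    (Eventually.of_forall fun u => ?_)
  rw [Real.norm_of_nonneg (cnK_nonneg u)]
  exact cnK_le u

lemma cnK_int_pos : 0 < ∫ u in Ioi (0:ℝ), cnK u := by
  rw [setIntegral_pos_iff_support_of_nonneg_ae (Eventually.of_forall cnK_nonneg)
    integrable_cnK.integrableOn]
  have : Ioi (0:ℝ) ⊆ Function.support cnK ∩ Ioi 0 := fun u hu => ⟨(cnK_pos hu).ne', hu⟩
  refine lt_of_lt_of_le ?_ (measure_mono this)
  simp

lemma cn_subord {m s : ℝ} (hm : 0 < m) (hs : 0 ≤ s) :
    ∫ v in Ioi (0:ℝ), exp (-(m ^ 2 / 2) * v ^ 2) * exp (-(s ^ 2 / (2 * v ^ 2)))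
      = √(2 * π) / 2 * (exp (-(m * s)) / m) := by
  have h := integral_comp_mul_right_Ioi
    (fun u : ℝ => exp (-(1 / 2) * u ^ 2) * exp (-((m * s) ^ 2 / (2 * u ^ 2)))) 0 hm
  rw [zero_mul, subord (mul_nonneg hm.le hs), smul_eq_mul] at h
  rw [div_eq_mul_inv (exp _), ← mul_assoc, mul_comm _ m⁻¹, ← h]
  refine setIntegral_congr_fun measurableSet_Ioi fun v hv => ?_
  have : (0:ℝ) < v := hv
  congr 2
  · ring
  · field_simp

/-- The two-variable integrand. -/
noncomputable def cnT (μ s : ℝ) (v l : ℝ) : ℝ :=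
  v ^ 2 * exp (-(μ ^ 2 / 2) * v ^ 2) * exp (-(s ^ 2 / (2 * v ^ 2))) * cnK (l * v)

lemma cnT_left (μ s : ℝ) {v : ℝ} (hv : 0 < v) : ∫ l in Ioi (0:ℝ), cnT μ s v l =
    (∫ u in Ioi (0:ℝ), cnK u) *
      (v * exp (-(μ ^ 2 / 2) * v ^ 2) * exp (-(s ^ 2 / (2 * v ^ 2)))) := by
  unfold cnT
  rw [integral_const_mul, integral_comp_mul_right_Ioi cnK 0 hv, zero_mul, smul_eq_mul]
  field_simp

/-- The one-variable integrand after the Gaussian integration. -/
noncomputable def cnD (μ s l : ℝ) : ℝ :=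
  (exp (-(μ * s)) / μ - exp (-(√(μ ^ 2 + l ^ 2) * s)) / √(μ ^ 2 + l ^ 2)) / l ^ 2

lemma cnT_right {μ s l : ℝ} (hμ : 0 < μ) (hs : 0 ≤ s) (hl : 0 < l) :
    ∫ v in Ioi (0:ℝ), cnT μ s v l = √(2 * π) / 2 * cnD μ s l := by
  have hm : 0 < √(μ ^ 2 + l ^ 2) := Real.sqrt_pos.2 (by positivity)
  have e : ∀ v ∈ Ioi (0:ℝ), cnT μ s v l =
      (exp (-(μ ^ 2 / 2) * v ^ 2) * exp (-(s ^ 2 / (2 * v ^ 2))) -
        exp (-(√(μ ^ 2 + l ^ 2) ^ 2 / 2) * v ^ 2) * exp (-(s ^ 2 / (2 * v ^ 2)))) / l ^ 2 := by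
    intro v hv
    have : (0:ℝ) < v := hv
    have e2 : exp (-(√(μ ^ 2 + l ^ 2) ^ 2 / 2) * v ^ 2) =
        exp (-(μ ^ 2 / 2) * v ^ 2) * exp (-((l * v) ^ 2 / 2)) := by
      rw [Real.sq_sqrt (by positivity), ← exp_add]
      congr 1
      ring
    rw [e2, cnT, cnK]
    field_simp
  rw [setIntegral_congr_fun measurableSet_Ioi e, integral_div,
    integral_sub (cn_int_gauss hμ s) (cn_int_gauss hm s), cn_subord hμ hs, cn_subord hm hs, cnD]
  ring

lemma integrable_cnT {μ : ℝ} (hμ : 0 < μ) (s : ℝ) : Integrable (Function.uncurry (cnT μ s))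
    ((volume.restrict (Ioi (0:ℝ))).prod (volume.restrict (Ioi (0:ℝ)))) := by
  have hm : Measurable (Function.uncurry (cnT μ s)) := by
    have := measurable_cnK
    unfold cnT Function.uncurry
    fun_prop
  rw [integrable_prod_iff hm.aestronglyMeasurable]
  constructor
  · filter_upwards [ae_restrict_mem measurableSet_Ioi] with v hv
    have hv' : (0:ℝ) < v := hv
    exact ((integrable_cnK.comp_mul_right' hv'.ne').const_mul
      (v ^ 2 * exp (-(μ ^ 2 / 2) * v ^ 2) * exp (-(s ^ 2 / (2 * v ^ 2))))).integrableOn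
  · refine ((cn_int_cc hμ s).const_mul (∫ u in Ioi (0:ℝ), cnK u)).congr ?_
    filter_upwards [ae_restrict_mem measurableSet_Ioi] with v hv
    have hv' : (0:ℝ) < v := hv
    rw [← cnT_left μ s hv']
    refine integral_congr_ae (Eventually.of_forall fun l => ?_)
    have := cnK_nonneg (l * v)
    simp only [Function.uncurry]
    rw [Real.norm_of_nonneg (by unfold cnT; positivity)]

lemma cn_rep {μ s : ℝ} (hμ : 0 < μ) (hs : 0 ≤ s) :
    IntegrableOn (fun l => √(2 * π) / 2 * cnD μ s l) (Ioi 0) ∧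
      (∫ u in Ioi (0:ℝ), cnK u) * cc μ s = ∫ l in Ioi (0:ℝ), √(2 * π) / 2 * cnD μ s l := by
  constructor
  · refine (integrable_cnT hμ s).integral_prod_right.congr ?_
    filter_upwards [ae_restrict_mem measurableSet_Ioi] with l hl
    exact cnT_right hμ hs hl
  · have h := integral_integral_swap (integrable_cnT hμ s)
    rw [setIntegral_congr_fun measurableSet_Ioi (fun v hv => cnT_left μ s hv),
      setIntegral_congr_fun measurableSet_Ioi (fun l hl => cnT_right hμ hs hl),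
      integral_const_mul] at h
    exact h

theorem cneg {ι : Type*} (F : Finset ι) {μ : ℝ} (hμ : 0 < μ) (a s : ι → ℝ)
    (hs : ∀ i ∈ F, 0 ≤ s i) (h0 : ∑ i ∈ F, a i * exp (-(μ * s i)) = 0) :
    ∑ i ∈ F, ∑ j ∈ F, a i * a j * cc μ (s i + s j) ≤ 0 := by
  have hr := fun i (hi : i ∈ F) j (hj : j ∈ F) => cn_rep hμ (add_nonneg (hs i hi) (hs j hj))
  have hsq : ∀ m : ℝ, ∑ i ∈ F, ∑ j ∈ F, a i * a j * exp (-(m * (s i + s j))) =
      (∑ i ∈ F, a i * exp (-(m * s i))) ^ 2 := by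
    intro m
    rw [sq, Finset.sum_mul_sum]
    refine Finset.sum_congr rfl fun i _ => Finset.sum_congr rfl fun j _ => ?_
    rw [show -(m * (s i + s j)) = -(m * s i) + -(m * s j) by ring, exp_add]
    ring
  refine le_of_mul_le_mul_left (a := ∫ u in Ioi (0:ℝ), cnK u) ?_ cnK_int_pos
  have e1 : (∫ u in Ioi (0:ℝ), cnK u) * ∑ i ∈ F, ∑ j ∈ F, a i * a j * cc μ (s i + s j) =
      ∫ l in Ioi (0:ℝ), ∑ i ∈ F, ∑ j ∈ F, a i * a j * (√(2 * π) / 2 * cnD μ (s i + s j) l) := by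
    rw [integral_finsetSum _ fun i hi =>
      integrable_finsetSum _ fun j hj => (hr i hi j hj).1.const_mul _, Finset.mul_sum]
    refine Finset.sum_congr rfl fun i hi => ?_
    rw [integral_finsetSum _ fun j hj => (hr i hi j hj).1.const_mul _, Finset.mul_sum]
    refine Finset.sum_congr rfl fun j hj => ?_
    rw [integral_const_mul, ← (hr i hi j hj).2]
    ring
  rw [e1, mul_zero]
  refine setIntegral_nonpos measurableSet_Ioi fun l _ => ?_
  have e2 : ∑ i ∈ F, ∑ j ∈ F, a i * a j * (√(2 * π) / 2 * cnD μ (s i + s j) l) =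
      √(2 * π) / 2 * (((∑ i ∈ F, ∑ j ∈ F, a i * a j * exp (-(μ * (s i + s j)))) / μ -
        (∑ i ∈ F, ∑ j ∈ F, a i * a j * exp (-(√(μ ^ 2 + l ^ 2) * (s i + s j)))) /
          √(μ ^ 2 + l ^ 2)) / l ^ 2) := by
    simp only [Finset.sum_div, ← Finset.sum_sub_distrib, Finset.mul_sum]
    refine Finset.sum_congr rfl fun i _ => Finset.sum_congr rfl fun j _ => ?_
    rw [cnD]
    ring
  rw [e2, hsq, hsq, h0]
  refine mul_nonpos_of_nonneg_of_nonpos (by positivity) (div_nonpos_of_nonpos_of_nonneg ?_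
    (sq_nonneg l))
  have : 0 ≤ (∑ i ∈ F, a i * exp (-(√(μ ^ 2 + l ^ 2) * s i))) ^ 2 / √(μ ^ 2 + l ^ 2) := by
    positivity
  simpa using this

theorem cbound {ι : Type*} (F : Finset ι) {μ : ℝ} (hμ : 0 < μ) (a s : ι → ℝ)
    (hs : ∀ i ∈ F, 0 ≤ s i) (a0 b n : ℝ) (hb : b = a0 + ∑ i ∈ F, a i * exp (-(μ * s i)))
    (hn : ∑ i ∈ F, |a i| ≤ n) :
    ∑ i ∈ F, ∑ j ∈ F, a i * a j * cc μ (s i + s j) + 2 * a0 * ∑ i ∈ F, a i * cc μ (s i)
      + a0 ^ 2 * cc μ 0 ≤ (4 * |b| * n + b ^ 2) / μ ^ 2 := by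
  have h := cneg (Finset.insertNone F) hμ (fun o => o.elim (a0 - b) a) (fun o => o.elim 0 s)
    (by
      intro o ho
      cases o with
      | none => exact le_rfl
      | some i => exact hs i (by simpa using ho))
    (by
      rw [Finset.sum_insertNone]
      simp only [Option.elim, mul_zero, neg_zero, exp_zero, mul_one]
      linarith)
  simp only [Finset.sum_insertNone, Option.elim, add_zero, zero_add, Finset.sum_add_distrib] at h
  have e1 : ∑ i ∈ F, (a0 - b) * a i * cc μ (s i) = (a0 - b) * ∑ i ∈ F, a i * cc μ (s i) := by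
    rw [Finset.mul_sum]
    exact Finset.sum_congr rfl fun i _ => by ring
  have e2 : ∑ i ∈ F, a i * (a0 - b) * cc μ (s i) = (a0 - b) * ∑ i ∈ F, a i * cc μ (s i) := by
    rw [Finset.mul_sum]
    exact Finset.sum_congr rfl fun i _ => by ring
  rw [e1, e2] at h
  have hc : 0 < 1 / μ ^ 2 := by positivity
  have k1 : |∑ i ∈ F, a i * cc μ (s i)| ≤ n * (1 / μ ^ 2) := by
    refine (Finset.abs_sum_le_sum_abs _ _).trans
      (le_trans ?_ (mul_le_mul_of_nonneg_right hn hc.le))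
    rw [Finset.sum_mul]
    refine Finset.sum_le_sum fun i _ => ?_
    rw [abs_mul, abs_of_nonneg (cc_nonneg μ _)]
    exact mul_le_mul_of_nonneg_left (cc_le hμ _) (abs_nonneg _)
  have k2 : |a0 - b| ≤ n := by
    rw [hb, show a0 - (a0 + ∑ i ∈ F, a i * exp (-(μ * s i))) =
      -∑ i ∈ F, a i * exp (-(μ * s i)) by ring, abs_neg]
    refine (Finset.abs_sum_le_sum_abs _ _).trans (le_trans (Finset.sum_le_sum fun i hi => ?_) hn)
    rw [abs_mul, abs_of_pos (exp_pos _)]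
    exact mul_le_of_le_one_right (abs_nonneg _)
      (exp_le_one_iff.2 (neg_nonpos.2 (mul_nonneg hμ.le (hs i hi))))
  rw [cc_zero hμ] at h ⊢
  have k3 : b * ∑ i ∈ F, a i * cc μ (s i) ≤ |b| * (n * (1 / μ ^ 2)) :=
    (le_abs_self _).trans (by
      rw [abs_mul]; exact mul_le_mul_of_nonneg_left k1 (abs_nonneg _))
  have k4 : b * (a0 - b) ≤ |b| * n :=
    (le_abs_self _).trans (by
      rw [abs_mul]; exact mul_le_mul_of_nonneg_left k2 (abs_nonneg _))
  have k5 := mul_le_mul_of_nonneg_right k4 hc.le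
  rw [div_eq_mul_one_div (4 * |b| * n + b ^ 2)]
  nlinarith
end

section
/-! Approximation of the Poisson symbol by cosine sums. -/

lemma approx_pow (a : ℝ) (n : ℕ) : (fun k : ℝ => cos (k * a) ^ n) ∈
    Submodule.span ℝ (Set.range fun y : ℝ => fun k : ℝ => cos (k * y)) := by
  have key : ∀ g ∈ Submodule.span ℝ (Set.range fun y : ℝ => fun k : ℝ => cos (k * y)),
      (fun k : ℝ => g k * cos (k * a)) ∈
        Submodule.span ℝ (Set.range fun y : ℝ => fun k : ℝ => cos (k * y)) := by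
    intro g hg
    induction hg using Submodule.span_induction with
    | mem x hx =>
      obtain ⟨y, rfl⟩ := hx
      have e : (fun k : ℝ => cos (k * y) * cos (k * a)) =
          (1 / 2 : ℝ) • ((fun k : ℝ => cos (k * (y + a))) + fun k : ℝ => cos (k * (y - a))) := by
        funext k
        simp only [Pi.smul_apply, Pi.add_apply, smul_eq_mul, mul_add, mul_sub, cos_add, cos_sub]
        ring
      rw [e]
      exact Submodule.smul_mem _ _ (Submodule.add_mem _ (Submodule.subset_span ⟨y + a, rfl⟩)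
        (Submodule.subset_span ⟨y - a, rfl⟩))
    | zero =>
      have e : (fun k : ℝ => (0 : ℝ → ℝ) k * cos (k * a)) = 0 := by
        funext k
        simp
      rw [e]
      exact Submodule.zero_mem _
    | add x y _ _ hx hy =>
      have e : (fun k : ℝ => (x + y) k * cos (k * a)) =
          (fun k : ℝ => x k * cos (k * a)) + fun k : ℝ => y k * cos (k * a) := by
        funext k
        simp only [Pi.add_apply]
        ring
      rw [e]
      exact Submodule.add_mem _ hx hy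
    | smul c x _ hx =>
      have e : (fun k : ℝ => (c • x) k * cos (k * a)) = c • fun k : ℝ => x k * cos (k * a) := by
        funext k
        simp only [Pi.smul_apply, smul_eq_mul]
        ring
      rw [e]
      exact Submodule.smul_mem _ _ hx
  induction n with
  | zero =>
    refine Submodule.subset_span ⟨0, ?_⟩
    funext k
    simp
  | succ n ih =>
    have e : (fun k : ℝ => cos (k * a) ^ (n + 1)) = fun k : ℝ => cos (k * a) ^ n * cos (k * a) := by
      funext k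
      rw [pow_succ]
    rw [e]
    exact key _ ih

lemma approx_poly (a : ℝ) (P : Polynomial ℝ) : ∃ τ : ℝ →₀ ℝ, ∀ k : ℝ,
    τ.sum (fun y b => b * cos (k * y)) = P.eval (cos (k * a)) := by
  have h : (fun k : ℝ => P.eval (cos (k * a))) ∈
      Submodule.span ℝ (Set.range fun y : ℝ => fun k : ℝ => cos (k * y)) := by
    induction P using Polynomial.induction_on' with
    | add p q hp hq =>
      have e : (fun k : ℝ => (p + q).eval (cos (k * a))) =
          (fun k : ℝ => p.eval (cos (k * a))) + fun k : ℝ => q.eval (cos (k * a)) := by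
        funext k
        simp
      rw [e]
      exact Submodule.add_mem _ hp hq
    | monomial n c =>
      have e : (fun k : ℝ => (Polynomial.monomial n c).eval (cos (k * a))) =
          c • fun k : ℝ => cos (k * a) ^ n := by
        funext k
        simp
      rw [e]
      exact Submodule.smul_mem _ _ (approx_pow a n)
  obtain ⟨τ, hτ⟩ := Finsupp.mem_span_range_iff_exists_finsupp.1 h
  refine ⟨τ, fun k => ?_⟩
  have := congrFun hτ k
  simpa [Finsupp.sum, Finset.sum_apply] using this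

theorem approx {s ε : ℝ} (hs : 0 ≤ s) (hε : 0 < ε) : ∃ τ : ℝ →₀ ℝ,
    (∀ k : ℝ, |exp (-(√(1 + k ^ 2) * s)) - τ.sum (fun y b => b * cos (k * y))| ≤ 3) ∧
    ∫ k : ℝ, |exp (-(√(1 + k ^ 2) * s)) - τ.sum (fun y b => b * cos (k * y))| / (1 + k ^ 2) ≤ ε := by
  obtain ⟨L, hL, hLε⟩ : ∃ L : ℝ, 0 < L ∧ 6 / L = ε / 2 :=
    ⟨12 / ε, by positivity, by field_simp; ring⟩
  obtain ⟨δ, hδ, hδ1, hδε⟩ : ∃ δ : ℝ, 0 < δ ∧ δ ≤ 1 ∧ δ ≤ ε / 8 :=
    ⟨min 1 (ε / 8), by positivity, min_le_left _ _, min_le_right _ _⟩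
  have hc : Continuous fun u : ℝ => exp (-(√(1 + (L * arccos u) ^ 2) * s)) := by
    have := continuous_arccos
    fun_prop
  obtain ⟨P, hP⟩ := exists_polynomial_near_of_continuousOn (-1) 1 _ hc.continuousOn δ hδ
  obtain ⟨τ, hτ⟩ := approx_poly L⁻¹ P
  have hb : ∀ t : ℝ, 0 < exp (-(√(1 + t ^ 2) * s)) ∧ exp (-(√(1 + t ^ 2) * s)) ≤ 1 := fun t =>
    ⟨exp_pos _, exp_le_one_iff.2 (neg_nonpos.2 (mul_nonneg (sqrt_nonneg _) hs))⟩
  have h3 : ∀ k : ℝ, |exp (-(√(1 + k ^ 2) * s)) - τ.sum (fun y b => b * cos (k * y))| ≤ 3 := by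
    intro k
    have h1 := abs_lt.1 (hP (cos (k * L⁻¹)) ⟨neg_one_le_cos _, cos_le_one _⟩)
    have h2 := hb (L * arccos (cos (k * L⁻¹)))
    have h4 := hb k
    rw [hτ, abs_le]
    constructor <;> linarith [h1.1, h1.2, h2.1, h2.2, h4.1, h4.2]
  have hnear : ∀ k : ℝ, |k| ≤ π * L →
      |exp (-(√(1 + k ^ 2) * s)) - τ.sum (fun y b => b * cos (k * y))| ≤ δ := by
    intro k hk
    have h1 := hP (cos (k * L⁻¹)) ⟨neg_one_le_cos _, cos_le_one _⟩
    have h2 : |k * L⁻¹| = |k| / L := by rw [abs_mul, abs_inv, abs_of_pos hL, div_eq_mul_inv]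
    have h4 : arccos (cos (k * L⁻¹)) = |k| / L := by
      rw [← cos_abs, h2]
      exact arccos_cos (by positivity) ((div_le_iff₀ hL).2 hk)
    have h5 : (L * (|k| / L)) ^ 2 = k ^ 2 := by
      rw [mul_div_cancel₀ _ hL.ne', sq_abs]
    simp only [h4, h5] at h1
    rw [hτ, abs_sub_comm]
    exact h1.le
  refine ⟨τ, h3, ?_⟩
  have hR : 0 < π * L := by positivity
  have i1 : Integrable fun k : ℝ => (1 + k ^ 2)⁻¹ := integrable_inv_one_add_sq
  have i2 : Integrable fun k : ℝ => (1 + (k / (π * L)) ^ 2)⁻¹ := i1.comp_div hR.ne'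
  have e2 : ∫ k : ℝ, (1 + (k / (π * L)) ^ 2)⁻¹ = π * L * π := by
    rw [Measure.integral_comp_div (fun k : ℝ => (1 + k ^ 2)⁻¹), integral_univ_inv_one_add_sq,
      abs_of_pos hR, smul_eq_mul]
  have hle : ∀ k : ℝ,
      |exp (-(√(1 + k ^ 2) * s)) - τ.sum (fun y b => b * cos (k * y))| / (1 + k ^ 2) ≤
        δ * (1 + k ^ 2)⁻¹ + 6 / (π * L) ^ 2 * (1 + (k / (π * L)) ^ 2)⁻¹ := by
    intro k
    have hk : 0 < 1 + k ^ 2 := by positivity
    rcases le_total |k| (π * L) with h | h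
    · have h1 : 0 ≤ 6 / (π * L) ^ 2 * (1 + (k / (π * L)) ^ 2)⁻¹ := by positivity
      have h2 := div_le_div_of_nonneg_right (hnear k h) hk.le
      rw [div_eq_mul_inv δ] at h2
      linarith
    · have h1 : 0 ≤ δ * (1 + k ^ 2)⁻¹ := by positivity
      have h2 := div_le_div_of_nonneg_right (h3 k) hk.le
      have h4 : 6 / (π * L) ^ 2 * (1 + (k / (π * L)) ^ 2)⁻¹ = 6 / ((π * L) ^ 2 + k ^ 2) := by
        field_simp
      have h5 : (π * L) ^ 2 ≤ k ^ 2 := by
        rw [← sq_abs k]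
        exact pow_le_pow_left₀ hR.le h 2
      have h6 : 3 / (1 + k ^ 2) ≤ 6 / ((π * L) ^ 2 + k ^ 2) := by
        rw [div_le_div_iff₀ hk (by positivity)]
        linarith
      linarith
  have hm := integral_mono_of_nonneg (μ := (volume : Measure ℝ))
    (Eventually.of_forall fun k : ℝ => div_nonneg (abs_nonneg _) (by positivity))
    ((i1.const_mul δ).add (i2.const_mul (6 / (π * L) ^ 2))) (Eventually.of_forall hle)
  refine hm.trans ?_
  simp only [Pi.add_apply]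
  rw [integral_add (i1.const_mul δ) (i2.const_mul _), integral_const_mul, integral_const_mul,
    integral_univ_inv_one_add_sq, e2]
  have h7 : 6 / (π * L) ^ 2 * (π * L * π) = 6 / L := by
    have := pi_pos
    field_simp
  rw [h7, hLε]
  nlinarith [pi_le_four, pi_pos]
end

section
/-! Fourier representation of the kernel along the axis. -/

lemma rep_cos {v : ℝ} (hv : 0 < v) (y : ℝ) :
    ∫ k : ℝ, cos (k * y) * exp (-(v ^ 2 / 2) * k ^ 2) =
      √(2 * π) / v * exp (-(y ^ 2 / (2 * v ^ 2))) := by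
  have hi : Integrable fun ξ : ℝ =>
      Complex.exp (Complex.I * y * ξ) * (exp (-(v ^ 2 / 2) * ξ ^ 2) : ℝ) := by
    refine (integrable_exp_neg_mul_sq (b := v ^ 2 / 2) (by positivity)).mono'
      (Continuous.aestronglyMeasurable (by fun_prop)) (Eventually.of_forall fun ξ => ?_)
    rw [norm_mul, Complex.norm_exp, Complex.norm_real, Real.norm_of_nonneg (exp_pos _).le]
    simp
  have h := congrArg Complex.re (gauss_ft hv y)
  rw [Complex.ofReal_re] at h
  rw [← h]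
  refine Eq.trans ?_ (Complex.reCLM.integral_comp_comm hi)
  refine integral_congr_ae (Eventually.of_forall fun ξ => ?_)
  have e : Complex.I * y * ξ = ((ξ * y : ℝ) : ℂ) * Complex.I := by
    push_cast
    ring
  simp only [Complex.reCLM_apply, e, Complex.re_mul_ofReal, Complex.exp_ofReal_mul_I_re]

lemma rep_maj : Integrable (fun p : ℝ × ℝ => p.1 * exp (-(1 / 2) * p.1 ^ 2) *
    exp (-(p.1 ^ 2 / 2) * p.2 ^ 2)) ((volume.restrict (Ioi (0 : ℝ))).prod volume) := by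
  rw [integrable_prod_iff (Continuous.aestronglyMeasurable (by fun_prop))]
  constructor
  · filter_upwards [ae_restrict_mem measurableSet_Ioi] with v hv
    have hv' : (0 : ℝ) < v := hv
    exact (integrable_exp_neg_mul_sq (b := v ^ 2 / 2) (by positivity)).const_mul _
  · refine (((integrable_exp_neg_mul_sq (b := 1 / 2) (by norm_num)).const_mul
      √(2 * π)).integrableOn).congr ?_
    filter_upwards [ae_restrict_mem measurableSet_Ioi] with v hv
    have hv' : (0 : ℝ) < v := hv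
    have h := rep_cos hv' 0
    simp only [mul_zero, cos_zero, one_mul, ne_eq, OfNat.ofNat_ne_zero, not_false_eq_true,
      zero_pow, zero_div, neg_zero, exp_zero, mul_one] at h
    have e : ∀ k : ℝ, ‖v * exp (-(1 / 2) * v ^ 2) * exp (-(v ^ 2 / 2) * k ^ 2)‖ =
        v * exp (-(1 / 2) * v ^ 2) * exp (-(v ^ 2 / 2) * k ^ 2) := fun k =>
      Real.norm_of_nonneg (by positivity)
    simp only [e]
    rw [integral_const_mul, h]
    field_simp

lemma rep (s y : ℝ) : Integrable (fun k : ℝ => cos (k * y) * cc (√(1 + k ^ 2)) s) ∧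
    exp (-√(s ^ 2 + y ^ 2)) = (∫ k : ℝ, cos (k * y) * cc (√(1 + k ^ 2)) s) / π := by
  let T : ℝ → ℝ → ℝ := fun v k => v * exp (-(1 / 2) * v ^ 2) * exp (-(s ^ 2 / (2 * v ^ 2))) *
    (cos (k * y) * exp (-(v ^ 2 / 2) * k ^ 2))
  have hT : Integrable (Function.uncurry T) ((volume.restrict (Ioi (0 : ℝ))).prod volume) := by
    refine rep_maj.mono' (Measurable.aestronglyMeasurable (by
      simp only [T]
      unfold Function.uncurry
      fun_prop)) ?_
    have h0 : ∀ᵐ p ∂((volume.restrict (Ioi (0 : ℝ))).prod (volume : Measure ℝ)), p.1 ∈ Ioi (0 : ℝ) :=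
      Measure.quasiMeasurePreserving_fst.ae (ae_restrict_mem measurableSet_Ioi)
    filter_upwards [h0] with p hp
    have hv : (0 : ℝ) < p.1 := hp
    have h1 : exp (-(s ^ 2 / (2 * p.1 ^ 2))) ≤ 1 := exp_le_one_iff.2 (neg_nonpos.2 (by positivity))
    have h2 : |cos (p.2 * y)| ≤ 1 := abs_cos_le_one _
    simp only [T, Function.uncurry, Real.norm_eq_abs, abs_mul, abs_of_pos hv, abs_exp]
    calc _ ≤ p.1 * exp (-(1 / 2) * p.1 ^ 2) * 1 * (1 * exp (-(p.1 ^ 2 / 2) * p.2 ^ 2)) := by gcongr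
      _ = _ := by ring
  have e1 : ∀ k : ℝ, ∫ v in Ioi (0 : ℝ), T v k = cos (k * y) * cc (√(1 + k ^ 2)) s := fun k => by
    rw [cc, ← integral_const_mul, Real.sq_sqrt (by positivity)]
    refine integral_congr_ae (Eventually.of_forall fun v => ?_)
    have : exp (-((1 + k ^ 2) / 2) * v ^ 2) =
        exp (-(1 / 2) * v ^ 2) * exp (-(v ^ 2 / 2) * k ^ 2) := by
      rw [← exp_add]
      congr 1
      ring
    simp only [T, this]
    ring
  have e2 : ∀ v ∈ Ioi (0 : ℝ), ∫ k : ℝ, T v k = √(2 * π) *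
      (exp (-(1 / 2) * v ^ 2) * exp (-(√(s ^ 2 + y ^ 2) ^ 2 / (2 * v ^ 2)))) := fun v hv => by
    have hv' : (0 : ℝ) < v := hv
    have h3 : exp (-((s ^ 2 + y ^ 2) / (2 * v ^ 2))) =
        exp (-(s ^ 2 / (2 * v ^ 2))) * exp (-(y ^ 2 / (2 * v ^ 2))) := by
      rw [← exp_add]
      congr 1
      ring
    simp only [T]
    rw [integral_const_mul, rep_cos hv', Real.sq_sqrt (by positivity), h3]
    field_simp
  refine ⟨hT.integral_prod_right.congr (Eventually.of_forall e1), ?_⟩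
  simp only [← e1]
  rw [← integral_integral_swap hT, setIntegral_congr_fun measurableSet_Ioi e2, integral_const_mul,
    subord (Real.sqrt_nonneg _), eq_div_iff pi_ne_zero]
  have h4 : √(2 * π) * √(2 * π) = 2 * π := Real.mul_self_sqrt (by positivity)
  linear_combination (-(exp (-√(s ^ 2 + y ^ 2))) / 2) * h4
end

section
/-! Reflected energy of a weight plus its approximate balayage on the axis. -/

/-- The bilinear form of a kernel. -/
noncomputable def KB (κ : Pl → Pl → ℝ) : (Pl →₀ ℝ) →ₗ[ℝ] (Pl →₀ ℝ) →ₗ[ℝ] ℝ :=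
  Finsupp.linearCombination ℝ (fun p => Finsupp.linearCombination ℝ (fun q : Pl => κ p q))

lemma KB_single (κ : Pl → Pl → ℝ) (p q : Pl) (a b : ℝ) :
    KB κ (Finsupp.single p a) (Finsupp.single q b) = a * b * κ p q := by
  simp [KB, mul_assoc]

lemma KB_apply (κ : Pl → Pl → ℝ) (μ ν : Pl →₀ ℝ) :
    KB κ μ ν = ∑ p ∈ μ.support, ∑ q ∈ ν.support, μ p * ν q * κ p q := by
  simp [KB, Finsupp.linearCombination_apply, Finsupp.sum, LinearMap.sum_apply, Finset.mul_sum,
    mul_assoc]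

lemma KB_congr {κ κ' : Pl → Pl → ℝ} {μ ν : Pl →₀ ℝ}
    (h : ∀ p ∈ μ.support, ∀ q ∈ ν.support, κ p q = κ' p q) : KB κ μ ν = KB κ' μ ν := by
  rw [KB_apply, KB_apply]
  exact Finset.sum_congr rfl fun p hp => Finset.sum_congr rfl fun q hq => by rw [h p hp q hq]

lemma KB_prod (f g : Pl → ℝ) (c : ℝ) (μ ν : Pl →₀ ℝ) : KB (fun p q => f p * g q * c) μ ν
    = Finsupp.linearCombination ℝ f μ * Finsupp.linearCombination ℝ g ν * c := by
  rw [KB_apply]
  simp only [Finsupp.linearCombination_apply, Finsupp.sum, smul_eq_mul]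
  rw [Finset.sum_mul_sum, Finset.sum_mul]
  refine Finset.sum_congr rfl fun p _ => ?_
  rw [Finset.sum_mul]
  exact Finset.sum_congr rfl fun q _ => by ring

/-- The reflected kernel at frequency `k`. -/
noncomputable def ker (k : ℝ) (p q : Pl) : ℝ :=
  cos (k * (p 1 - q 1)) * cc (√(1 + k ^ 2)) (-(p 0) + -(q 0))

lemma E_Th_rep (μ ν : Pl →₀ ℝ) : Integrable (fun k => KB (ker k) μ ν) ∧
    E μ (Th ν) = (∫ k, KB (ker k) μ ν) / π := by
  induction μ using Finsupp.induction_linear with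
  | zero => simp
  | add f g hf hg =>
    simp only [map_add, LinearMap.add_apply]
    exact ⟨hf.1.add hg.1, by rw [integral_add hf.1 hg.1, hf.2, hg.2]; ring⟩
  | single p a =>
    induction ν using Finsupp.induction_linear with
    | zero => simp
    | add f g hf hg =>
      simp only [map_add]
      exact ⟨hf.1.add hg.1, by rw [integral_add hf.1 hg.1, hf.2, hg.2]; ring⟩
    | single q b =>
      simp only [KB_single, Th_single, E_single, ker]
      obtain ⟨h1, h2⟩ := rep (-(p 0) + -(q 0)) (p 1 - q 1)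
      refine ⟨h1.const_mul _, ?_⟩
      rw [integral_const_mul, mul_div_assoc, ← h2, dist_pl, th_zero, th_one]
      congr 4
      ring

lemma one_freq {ι : Type*} (F : Finset ι) (r : ι → Pl) (hr : ∀ i ∈ F, r i 0 ≤ 0) {m : ℝ}
    (hm : 0 < m) (g : Pl → ℝ) (hg : ∀ p, |g p| ≤ 1) (z : ι → ℝ) {σ : Pl →₀ ℝ}
    (hσ : ∀ q ∈ σ.support, q 0 = 0) (b : ℝ) (hb : b = Finsupp.linearCombination ℝ g σ
      + ∑ i ∈ F, z i * g (r i) * exp (-(m * -(r i 0)))) :
    KB (fun p q => g p * g q * cc m (-(p 0) + -(q 0)))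
      (∑ i ∈ F, z i • Finsupp.single (r i) 1 + σ) (∑ i ∈ F, z i • Finsupp.single (r i) 1 + σ)
      ≤ (4 * |b| * ∑ i ∈ F, |z i| + b ^ 2) / m ^ 2 := by
  have h := cbound F hm (fun i => z i * g (r i)) (fun i => -(r i 0))
    (fun i hi => neg_nonneg.2 (hr i hi)) _ b (∑ i ∈ F, |z i|) hb
    (Finset.sum_le_sum fun i _ => by
      rw [abs_mul]; exact mul_le_of_le_one_right (abs_nonneg _) (hg _))
  refine le_of_eq_of_le ?_ h
  set ω : Pl →₀ ℝ := ∑ i ∈ F, z i • Finsupp.single (r i) 1 with hω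
  have e0 : Finsupp.linearCombination ℝ (fun p : Pl => g p * cc m (-(p 0))) ω
      = ∑ i ∈ F, z i * g (r i) * cc m (-(r i 0)) := by
    simp [hω, map_sum, mul_assoc]
  have e1 : KB (fun p q => g p * g q * cc m (-(p 0) + -(q 0))) ω ω
      = ∑ i ∈ F, ∑ j ∈ F, z i * g (r i) * (z j * g (r j)) * cc m (-(r i 0) + -(r j 0)) := by
    simp only [hω, map_sum, LinearMap.sum_apply, Finsupp.smul_single, KB_single, smul_eq_mul]
    rw [Finset.sum_comm]
    exact Finset.sum_congr rfl fun i _ => Finset.sum_congr rfl fun j _ => by ring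
  have e2 : KB (fun p q => g p * g q * cc m (-(p 0) + -(q 0))) ω σ
      = KB (fun p q => g p * cc m (-(p 0)) * g q * 1) ω σ :=
    KB_congr fun p _ q hq => by rw [hσ q hq, neg_zero, add_zero]; ring
  have e3 : KB (fun p q => g p * g q * cc m (-(p 0) + -(q 0))) σ ω
      = KB (fun p q => g p * (g q * cc m (-(q 0))) * 1) σ ω :=
    KB_congr fun p hp q _ => by rw [hσ p hp, neg_zero, zero_add]; ring
  have e4 : KB (fun p q => g p * g q * cc m (-(p 0) + -(q 0))) σ σ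
      = KB (fun p q => g p * g q * cc m 0) σ σ :=
    KB_congr fun p hp q hq => by rw [hσ p hp, hσ q hq, neg_zero, add_zero]
  simp only [map_add, LinearMap.add_apply]
  rw [e1, e2, e3, e4, KB_prod (fun p : Pl => g p * cc m (-(p 0))) g,
    KB_prod g (fun p : Pl => g p * cc m (-(p 0))), KB_prod g g, e0]
  ring

/-- Symmetric placement of a cosine sum on the axis around height `y0`. -/
noncomputable def Ax (y0 : ℝ) (τ : ℝ →₀ ℝ) : Pl →₀ ℝ :=
  (-(1 / 2) : ℝ) • (τ.mapDomain (fun y => pt 0 (y0 + y)) + τ.mapDomain (fun y => pt 0 (y0 - y)))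

lemma Ax_mem (y0 : ℝ) (τ : ℝ →₀ ℝ) : Ax y0 τ ∈ Finsupp.supported ℝ ℝ {q : Pl | q 0 = 0} := by
  have h : ∀ f : ℝ → ℝ, τ.mapDomain (fun y => pt 0 (f y))
      ∈ Finsupp.supported ℝ ℝ {q : Pl | q 0 = 0} := by
    intro f
    rw [Finsupp.mem_supported]
    intro q hq
    obtain ⟨y, _, rfl⟩ := Finset.mem_image.1 (Finsupp.mapDomain_support hq)
    exact pt_zero _ _
  exact Submodule.smul_mem _ _ (Submodule.add_mem _ (h _) (h _))

lemma lc_Ax (k y0 : ℝ) (τ : ℝ →₀ ℝ) {g : ℝ → ℝ}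
    (hg : ∀ a b, g (a + b) + g (a - b) = 2 * g a * cos b) :
    Finsupp.linearCombination ℝ (fun p : Pl => g (k * p 1)) (Ax y0 τ)
      = -(g (k * y0) * τ.sum (fun y b => b * cos (k * y))) := by
  unfold Ax
  rw [map_smul, map_add, Finsupp.linearCombination_mapDomain, Finsupp.linearCombination_mapDomain]
  simp only [Finsupp.linearCombination_apply, Finsupp.sum, smul_eq_mul, Function.comp, pt_one]
  rw [← Finset.sum_add_distrib, Finset.mul_sum, Finset.mul_sum, ← Finset.sum_neg_distrib]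
  refine Finset.sum_congr rfl fun y _ => ?_
  rw [← mul_add, mul_add k, mul_sub k, hg]
  ring

theorem core {ι : Type*} (F : Finset ι) (r : ι → Pl) (hr : ∀ i ∈ F, r i 0 ≤ 0) {ε : ℝ}
    (hε : 0 < ε) : ∃ σ : ι → (Pl →₀ ℝ), (∀ i, ∀ q ∈ (σ i).support, q 0 = 0) ∧ ∀ z : ι → ℝ,
      E (∑ i ∈ F, z i • (Finsupp.single (r i) 1 + σ i))
        (Th (∑ i ∈ F, z i • (Finsupp.single (r i) 1 + σ i))) ≤ ε * (∑ i ∈ F, |z i|) ^ 2 := by
  have hε' : 0 < ε / 14 := by positivity
  choose τ hτ1 hτ2 using fun i : ι => approx (s := |r i 0|) (abs_nonneg _) hε'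
  set err : ι → ℝ → ℝ := fun i k =>
    exp (-(√(1 + k ^ 2) * |r i 0|)) - (τ i).sum (fun y b => b * cos (k * y)) with herr
  refine ⟨fun i => Ax (r i 1) (τ i), fun i q hq => (Finsupp.mem_supported ℝ _).1 (Ax_mem _ _) hq,
    fun z => ?_⟩
  set n := ∑ i ∈ F, |z i| with hn
  have hn0 : 0 ≤ n := Finset.sum_nonneg fun i _ => abs_nonneg _
  set σ : Pl →₀ ℝ := ∑ i ∈ F, z i • Ax (r i 1) (τ i) with hσ
  have hσ0 : ∀ q ∈ σ.support, q 0 = 0 := fun q hq => (Finsupp.mem_supported ℝ _).1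
    (Submodule.sum_mem _ fun i _ => Submodule.smul_mem _ _ (Ax_mem _ _)) hq
  have hζ : ∑ i ∈ F, z i • (Finsupp.single (r i) (1 : ℝ) + Ax (r i 1) (τ i))
      = ∑ i ∈ F, z i • Finsupp.single (r i) 1 + σ := by
    simp only [smul_add, Finset.sum_add_distrib, hσ]
  rw [hζ]
  set ζ : Pl →₀ ℝ := ∑ i ∈ F, z i • Finsupp.single (r i) 1 + σ with hζ'
  have hone : ∀ (k : ℝ) (g : ℝ → ℝ), (∀ x, |g x| ≤ 1) →
      (∀ a b, g (a + b) + g (a - b) = 2 * g a * cos b) →
      KB (fun p q => g (k * p 1) * g (k * q 1) * cc (√(1 + k ^ 2)) (-(p 0) + -(q 0))) ζ ζ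
        ≤ 7 * n * ∑ i ∈ F, |z i| * (|err i k| / (1 + k ^ 2)) := by
    intro k g hg1 hg2
    have hk : 0 < 1 + k ^ 2 := by positivity
    have h := one_freq F r hr (Real.sqrt_pos.2 hk) (fun p => g (k * p 1)) (fun p => hg1 _) z hσ0
      (∑ i ∈ F, z i * g (k * r i 1) * err i k) (by
        simp only [hσ, map_sum, map_smul, lc_Ax k _ _ hg2, smul_eq_mul, ← Finset.sum_add_distrib]
        refine Finset.sum_congr rfl fun i hi => ?_
        simp only [herr, abs_of_nonpos (hr i hi)]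
        ring)
    refine h.trans ?_
    rw [Real.sq_sqrt hk.le]
    set b := ∑ i ∈ F, z i * g (k * r i 1) * err i k with hb
    have hb1 : |b| ≤ ∑ i ∈ F, |z i| * |err i k| := by
      refine (Finset.abs_sum_le_sum_abs _ _).trans (Finset.sum_le_sum fun i _ => ?_)
      rw [abs_mul, abs_mul]
      exact mul_le_mul_of_nonneg_right (mul_le_of_le_one_right (abs_nonneg _) (hg1 _))
        (abs_nonneg _)
    have hb2 : ∑ i ∈ F, |z i| * |err i k| ≤ 3 * n := by
      rw [hn, Finset.mul_sum]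
      exact Finset.sum_le_sum fun i _ => by
        rw [mul_comm 3]; exact mul_le_mul_of_nonneg_left (hτ1 i k) (abs_nonneg _)
    have e : ∑ i ∈ F, |z i| * (|err i k| / (1 + k ^ 2))
        = (∑ i ∈ F, |z i| * |err i k|) / (1 + k ^ 2) := by
      rw [Finset.sum_div]
      exact Finset.sum_congr rfl fun i _ => by ring
    rw [e, ← mul_div_assoc]
    refine div_le_div_of_nonneg_right ?_ hk.le
    rw [← sq_abs b]
    have k1 := mul_le_mul_of_nonneg_left (hb1.trans hb2) (abs_nonneg b)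
    have k2 := mul_le_mul_of_nonneg_left hb1 hn0
    nlinarith only [k1, k2]
  have hpt : ∀ k : ℝ, KB (ker k) ζ ζ ≤ 14 * n * ∑ i ∈ F, |z i| * (|err i k| / (1 + k ^ 2)) := by
    intro k
    have h1 := hone k cos abs_cos_le_one (fun a b => by rw [cos_add, cos_sub]; ring)
    have h2 := hone k sin abs_sin_le_one (fun a b => by rw [sin_add, sin_sub]; ring)
    have e : KB (ker k) ζ ζ =
        KB (fun p q => cos (k * p 1) * cos (k * q 1) * cc (√(1 + k ^ 2)) (-(p 0) + -(q 0))) ζ ζ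
        + KB (fun p q => sin (k * p 1) * sin (k * q 1) * cc (√(1 + k ^ 2)) (-(p 0) + -(q 0))) ζ ζ := by
      simp only [KB_apply, ← Finset.sum_add_distrib]
      refine Finset.sum_congr rfl fun p _ => Finset.sum_congr rfl fun q _ => ?_
      rw [ker, mul_sub, cos_sub]
      ring
    linarith only [e, h1, h2]
  have hint : ∀ i, Integrable (fun k : ℝ => |err i k| / (1 + k ^ 2)) := by
    intro i
    have hc : Continuous (err i) := by
      simp only [herr, Finsupp.sum]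
      fun_prop
    refine (integrable_inv_one_add_sq.const_mul 3).mono'
      (hc.abs.div (by fun_prop) fun k => by positivity).aestronglyMeasurable
      (Eventually.of_forall fun k => ?_)
    rw [Real.norm_of_nonneg (by positivity), div_eq_mul_inv]
    exact mul_le_mul_of_nonneg_right (hτ1 i k) (by positivity)
  obtain ⟨hI, hE⟩ := E_Th_rep ζ ζ
  have hS : Integrable (fun k : ℝ => ∑ i ∈ F, |z i| * (|err i k| / (1 + k ^ 2))) :=
    integrable_finsetSum _ fun i _ => (hint i).const_mul _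
  have h1 := integral_mono hI (hS.const_mul (14 * n)) hpt
  rw [integral_const_mul, integral_finsetSum _ fun i _ => (hint i).const_mul _] at h1
  have h2 : ∑ i ∈ F, ∫ k : ℝ, |z i| * (|err i k| / (1 + k ^ 2)) ≤ n * (ε / 14) := by
    rw [hn, Finset.sum_mul]
    refine Finset.sum_le_sum fun i _ => ?_
    rw [integral_const_mul]
    exact mul_le_mul_of_nonneg_left (hτ2 i) (abs_nonneg _)
  have h3 := mul_le_mul_of_nonneg_left h2 (by positivity : 0 ≤ 14 * n)
  rw [hE, div_le_iff₀ pi_pos]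
  have h4 : ε * n ^ 2 * 1 ≤ ε * n ^ 2 * π :=
    mul_le_mul_of_nonneg_left (by linarith only [pi_gt_three]) (by positivity)
  linarith only [h1, h3, h4]
end

section
/-! Test weights and a uniform bound on weightings. -/

lemma E_comm (μ ν : Pl →₀ ℝ) : E μ ν = E ν μ := by
  induction μ using Finsupp.induction_linear with
  | zero => simp
  | add f g hf hg => simp only [map_add, LinearMap.add_apply, hf, hg]
  | single p a =>
    induction ν using Finsupp.induction_linear with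
    | zero => simp
    | add f g hf hg => simp only [map_add, LinearMap.add_apply, hf, hg]
    | single q b => rw [E_single, E_single, dist_comm, mul_comm a b]

lemma E_Th (μ ν : Pl →₀ ℝ) : E (Th μ) (Th ν) = E μ ν := by
  induction μ using Finsupp.induction_linear with
  | zero => simp
  | add f g hf hg => simp only [map_add, LinearMap.add_apply, hf, hg]
  | single p a =>
    induction ν using Finsupp.induction_linear with
    | zero => simp
    | add f g hf hg => simp only [map_add, hf, hg]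
    | single q b => rw [Th_single, Th_single, E_single, E_single, isometry_th.dist_eq]

lemma Th_Th (μ : Pl →₀ ℝ) : Th (Th μ) = μ := by
  induction μ using Finsupp.induction_linear with
  | zero => simp
  | add f g hf hg => simp only [map_add, hf, hg]
  | single p a => rw [Th_single, Th_single, th_th]

lemma ms_Th (μ : Pl →₀ ℝ) : ms (Th μ) = ms μ := by
  induction μ using Finsupp.induction_linear with
  | zero => simp
  | add f g hf hg => simp only [map_add, hf, hg]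
  | single p a => rw [Th_single, ms_single, ms_single]

lemma test_repr (μ : Pl →₀ ℝ) : μ = ∑ x ∈ μ.support, Finsupp.single x (μ x) :=
  (Finsupp.sum_single μ).symm

lemma Th_axis {μ : Pl →₀ ℝ} (h : ∀ q ∈ μ.support, q 0 = 0) : Th μ = μ := by
  conv_lhs => rw [test_repr μ]
  conv_rhs => rw [test_repr μ]
  rw [map_sum]
  exact Finset.sum_congr rfl fun q hq => by rw [Th_single, th_axis (h q hq)]

lemma test_ms (S : Finset Pl) (a : Pl → ℝ) :
    ms (∑ x ∈ S, Finsupp.single x (a x)) = ∑ x ∈ S, a x := by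
  rw [map_sum]
  exact Finset.sum_congr rfl fun x _ => ms_single _ _

lemma test_E (S : Finset Pl) (a b : Pl → ℝ) :
    E (∑ x ∈ S, Finsupp.single x (a x)) (∑ x ∈ S, Finsupp.single x (b x)) = Hedge.B S a b := by
  rw [map_sum E, LinearMap.sum_apply]
  refine Finset.sum_congr rfl fun x _ => ?_
  rw [map_sum]
  exact Finset.sum_congr rfl fun y _ => E_single _ _ _ _

lemma test {X : Set Pl} (hX : Bornology.IsBounded X) (μ : Pl →₀ ℝ)
    (h : ∀ q ∈ μ.support, q ∈ X) : 2 * ms μ - E μ μ ≤ M X := by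
  have h1 : ms μ = ∑ x ∈ μ.support, μ x := by
    conv_lhs => rw [test_repr μ]
    exact test_ms _ _
  have h2 : E μ μ = Hedge.B μ.support μ μ := by
    conv_lhs => rw [test_repr μ]
    exact test_E _ _ _
  have h3 : Hedge.magF μ.support ≤ M X := Hedge.magF_le_mag hX fun q hq => h q hq
  have h4 := Hedge.B_G_one (Finset.Subset.refl μ.support) (a := μ) fun y hy hy' => absurd hy hy'
  have h5 := (le_abs_self _).trans (Hedge.abs_B_le μ.support (Hedge.G μ.support 1) μ)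
  have h6 := Hedge.N_sq μ.support (Hedge.G μ.support 1)
  have h7 := Hedge.N_sq μ.support μ
  rw [← Hedge.magF_eq] at h6
  rw [h4] at h5
  rw [h1, h2]
  nlinarith [sq_nonneg (Hedge.N μ.support (Hedge.G μ.support 1) - Hedge.N μ.support μ)]

lemma weight_val (S : Finset Pl) :
    2 * ms (∑ x ∈ S, Finsupp.single x (Hedge.G S 1 x))
      - E (∑ x ∈ S, Finsupp.single x (Hedge.G S 1 x)) (∑ x ∈ S, Finsupp.single x (Hedge.G S 1 x))
      = Hedge.magF S := by
  rw [test_ms, test_E, ← Hedge.magF_eq, Hedge.sum_G_one (Finset.Subset.refl S)]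
  ring

lemma test_N (S : Finset Pl) (a : Pl → ℝ) {p : Pl} (hp : p ∈ S)
    (h : ∀ x ∈ S, x ≠ p → a x = 0) : Hedge.N S a = |a p| := by
  unfold Hedge.N Hedge.B
  rw [Finset.sum_eq_single_of_mem p hp fun x hx hxp => by simp [h x hx hxp],
    Finset.sum_eq_single_of_mem p hp fun x hx hxp => by simp [h x hx hxp]]
  simp [Real.sqrt_mul_self_eq_abs]

lemma wbound (F0 : Finset Pl) (h : ∀ p ∈ F0, p 0 ≠ 0) : ∃ K : ℝ, 0 ≤ K ∧ ∀ S : Finset Pl,
    (∀ q ∈ S, q ∈ F0 ∨ q 0 = 0) → ∀ p ∈ F0, |Hedge.G S 1 p| ≤ K := by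
  obtain ⟨γ, hγ0, hγ⟩ := Hedge.twist (V := Pl)
  obtain ⟨K, hK0, hK⟩ := Hedge.unif (T := F0)
    (P := fun p K => ∀ S : Finset Pl, (∀ q ∈ S, q ∈ F0 ∨ q 0 = 0) → |Hedge.G S 1 p| ≤ K)
    (fun p K K' hKK H S hS => (H S hS).trans hKK) (fun p hp => by
      have hc : IsClosed (((F0.erase p : Finset Pl) : Set Pl) ∪ {q : Pl | q 0 = 0}) :=
        (F0.erase p).finite_toSet.isClosed.union (isClosed_eq (by fun_prop) continuous_const)
      have hs : (fun z : Pl => z + p) ⁻¹'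
          (((F0.erase p : Finset Pl) : Set Pl) ∪ {q : Pl | q 0 = 0})ᶜ ∈ 𝓝 (0 : Pl) := by
        refine (hc.isOpen_compl.preimage (by fun_prop)).mem_nhds ?_
        simp [h p hp]
      obtain ⟨g, g1, g2, g3, -, g5⟩ := exists_contDiff_tsupport_subset (n := ⊤) hs
      obtain ⟨K, hK0, hK⟩ := Hedge.ul hγ0 hγ g2 g3
      refine ⟨K, fun S hS => ?_⟩
      by_cases hpS : p ∈ S
      · have h1 := hK S S (Finset.Subset.refl S) p
        rw [test_N S _ hpS fun x hx hxp => ?_] at h1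
        · simpa [g5] using h1
        · have : g (x - p) = 0 := by
            by_contra hg
            have h2 := g1 (subset_tsupport g hg)
            rw [mem_preimage, sub_add_cancel] at h2
            rcases hS x hx with h3 | h3
            · exact h2 (Or.inl (by simp [h3, hxp]))
            · exact h2 (Or.inr h3)
          rw [this, zero_mul]
      · rw [Hedge.G_out _ hpS, abs_zero]
        exact hK0)
  exact ⟨K, hK0, fun S hS p hp => hK p hp S hS⟩
end

section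
/-! Reflection inequality for magnitude with a needle on the axis. -/

lemma rp_two {U I : Set Pl} (hU : Bornology.IsBounded U) (hI : Bornology.IsBounded I)
    (a b : Pl →₀ ℝ) (ha : a + Th a ∈ Finsupp.supported ℝ ℝ U)
    (hb : b + Th b ∈ Finsupp.supported ℝ ℝ I) :
    2 * (2 * ms (a + b) - E (a + b) (a + b)) - 2 * E (a - Th b) (Th (a - Th b)) ≤ M U + M I := by
  have h1 := test hU _ fun q hq => (Finsupp.mem_supported ℝ _).1 ha hq
  have h2 := test hI _ fun q hq => (Finsupp.mem_supported ℝ _).1 hb hq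
  simp only [map_add, map_sub, LinearMap.add_apply, LinearMap.sub_apply, ms_Th, E_Th, Th_Th]
    at h1 h2 ⊢
  have e1 := E_comm (Th a) a
  have e2 := E_comm (Th b) b
  have e3 := E_comm b a
  linarith

lemma rp_supp {X : Set Pl} (F : Finset Pl) (f : Pl → Pl) (c : Pl → ℝ)
    (h : ∀ p ∈ F, c p = 0 ∨ f p ∈ X) :
    ∑ p ∈ F, Finsupp.single (f p) (c p) ∈ Finsupp.supported ℝ ℝ X := by
  refine Submodule.sum_mem _ fun p hp => ?_
  rcases h p hp with h0 | h0
  · rw [h0, Finsupp.single_zero]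
    exact Submodule.zero_mem _
  · exact Finsupp.single_mem_supported ℝ _ h0

theorem rpfin (F0 : Finset Pl) (h : ∀ p ∈ F0, p 0 ≠ 0) {ε : ℝ} (hε : 0 < ε) :
    ∃ T1 : ℝ, ∀ T : ℝ, T1 ≤ T → ∀ U I : Set Pl, Bornology.IsBounded U → Bornology.IsBounded I →
      Nd T ⊆ U → Nd T ⊆ I → (∀ p ∈ F0, p 0 < 0 → p ∈ U ∧ th p ∈ U) →
      (∀ p ∈ F0, 0 < p 0 → p ∈ I ∧ th p ∈ I) → 2 * M (↑F0 ∪ Nd T) - ε ≤ M U + M I := by
  obtain ⟨K, hK0, hK⟩ := wbound F0 h
  have hn : 0 < K * F0.card + 1 := by positivity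
  obtain ⟨σ, hσ0, hcore⟩ := core F0 (fun p => if p 0 < 0 then p else th p)
    (fun p _ => by
      by_cases hp : p 0 < 0
      · simp only [hp, if_true]
        exact hp.le
      · simp only [hp, if_false, th_zero]
        linarith [not_lt.1 hp])
    (ε := ε / (4 * (K * F0.card + 1) ^ 2)) (by positivity)
  refine ⟨∑ q ∈ F0.biUnion fun p => (σ p).support, |q 1|, fun T hT U I hU hI hNU hNI hL hR => ?_⟩
  have hσN : ∀ p ∈ F0, σ p ∈ Finsupp.supported ℝ ℝ (Nd T) := fun p hp =>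
    (Finsupp.mem_supported ℝ _).2 fun q hq => ⟨hσ0 p q hq, le_trans
      (Finset.single_le_sum (f := fun q : Pl => |q 1|) (fun q _ => abs_nonneg _)
        (Finset.mem_biUnion.2 ⟨p, hp, hq⟩)) hT⟩
  obtain ⟨S0, hS0, hlt⟩ := Hedge.exists_lt_magF (↑F0 ∪ Nd T) (show 0 < ε / 4 by positivity)
  have hmono := Hedge.magF_mono (Finset.subset_union_left (s₁ := S0) (s₂ := F0))
  have hsub : F0 ⊆ S0 ∪ F0 := Finset.subset_union_right
  have hS : ∀ q ∈ S0 ∪ F0, q ∈ F0 ∨ q ∈ Nd T := fun q hq =>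
    (Finset.mem_union.1 hq).elim (fun h0 => hS0 h0) Or.inl
  generalize S0 ∪ F0 = S at hmono hsub hS
  have hw := hK S fun q hq => (hS q hq).imp id fun h0 => h0.1
  have hval := weight_val S
  generalize Hedge.G S 1 = w at hw hval
  have hc := hcore fun p => if p 0 < 0 then w p else -w p
  set νL : Pl →₀ ℝ := ∑ p ∈ F0, Finsupp.single p (if p 0 < 0 then w p else 0) with hνL
  set νR : Pl →₀ ℝ := ∑ p ∈ F0, Finsupp.single p (if p 0 < 0 then 0 else w p) with hνR
  set ν0 : Pl →₀ ℝ := ∑ p ∈ S \ F0, Finsupp.single p (w p) with hν0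
  set s : Pl →₀ ℝ := ∑ p ∈ F0, (if p 0 < 0 then w p else -w p) • σ p with hs
  have hTL : Th νL = ∑ p ∈ F0, Finsupp.single (th p) (if p 0 < 0 then w p else 0) := by
    simp only [hνL, map_sum, Th_single]
  have hTR : Th νR = ∑ p ∈ F0, Finsupp.single (th p) (if p 0 < 0 then 0 else w p) := by
    simp only [hνR, map_sum, Th_single]
  have h0N : ν0 ∈ Finsupp.supported ℝ ℝ (Nd T) :=
    rp_supp (S \ F0) (fun p => p) w fun p hp =>
      Or.inr ((hS p (Finset.mem_sdiff.1 hp).1).resolve_left (Finset.mem_sdiff.1 hp).2)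
  have hsN : s ∈ Finsupp.supported ℝ ℝ (Nd T) :=
    Submodule.sum_mem _ fun p hp => Submodule.smul_mem _ _ (hσN p hp)
  have hT0 : Th ν0 = ν0 := Th_axis fun q hq => ((Finsupp.mem_supported ℝ _).1 h0N hq).1
  have hTs : Th s = s := Th_axis fun q hq => ((Finsupp.mem_supported ℝ _).1 hsN hq).1
  have hpos : ∀ p ∈ F0, ¬ p 0 < 0 → 0 < p 0 := fun p hp h0 =>
    lt_of_le_of_ne (not_lt.1 h0) (h p hp).symm
  have m1 : νL ∈ Finsupp.supported ℝ ℝ U := rp_supp F0 (fun p => p) _ fun p hp => by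
    by_cases h0 : p 0 < 0
    · exact Or.inr (hL p hp h0).1
    · exact Or.inl (if_neg h0)
  have m2 : Th νL ∈ Finsupp.supported ℝ ℝ U := hTL ▸ rp_supp F0 th _ fun p hp => by
    by_cases h0 : p 0 < 0
    · exact Or.inr (hL p hp h0).2
    · exact Or.inl (if_neg h0)
  have m3 : νR ∈ Finsupp.supported ℝ ℝ I := rp_supp F0 (fun p => p) _ fun p hp => by
    by_cases h0 : p 0 < 0
    · exact Or.inl (if_pos h0)
    · exact Or.inr (hR p hp (hpos p hp h0)).1
  have m4 : Th νR ∈ Finsupp.supported ℝ ℝ I := hTR ▸ rp_supp F0 th _ fun p hp => by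
    by_cases h0 : p 0 < 0
    · exact Or.inl (if_pos h0)
    · exact Or.inr (hR p hp (hpos p hp h0)).2
  have key := rp_two hU hI (νL + (1 / 2 : ℝ) • ν0 + (1 / 2 : ℝ) • s)
    (νR + (1 / 2 : ℝ) • ν0 - (1 / 2 : ℝ) • s)
    (by
      have e : νL + (1 / 2 : ℝ) • ν0 + (1 / 2 : ℝ) • s
          + Th (νL + (1 / 2 : ℝ) • ν0 + (1 / 2 : ℝ) • s) = νL + Th νL + ν0 + s := by
        simp only [map_add, map_smul, hT0, hTs]
        module
      rw [e]
      exact add_mem (add_mem (add_mem m1 m2) (Finsupp.supported_mono hNU h0N))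
        (Finsupp.supported_mono hNU hsN))
    (by
      have e : νR + (1 / 2 : ℝ) • ν0 - (1 / 2 : ℝ) • s
          + Th (νR + (1 / 2 : ℝ) • ν0 - (1 / 2 : ℝ) • s) = νR + Th νR + ν0 - s := by
        simp only [map_add, map_sub, map_smul, hT0, hTs]
        module
      rw [e]
      exact sub_mem (add_mem (add_mem m3 m4) (Finsupp.supported_mono hNI h0N))
        (Finsupp.supported_mono hNI hsN))
  have e1 : νL + (1 / 2 : ℝ) • ν0 + (1 / 2 : ℝ) • s + (νR + (1 / 2 : ℝ) • ν0 - (1 / 2 : ℝ) • s)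
      = ∑ x ∈ S, Finsupp.single x (w x) := by
    have e : νL + νR = ∑ x ∈ F0, Finsupp.single x (w x) := by
      rw [hνL, hνR, ← Finset.sum_add_distrib]
      refine Finset.sum_congr rfl fun p _ => ?_
      split_ifs <;> simp
    rw [← Finset.sum_sdiff hsub, ← e, ← hν0]
    module
  have e2 : νL + (1 / 2 : ℝ) • ν0 + (1 / 2 : ℝ) • s
      - Th (νR + (1 / 2 : ℝ) • ν0 - (1 / 2 : ℝ) • s) = ∑ p ∈ F0, (if p 0 < 0 then w p else -w p) •
        (Finsupp.single (if p 0 < 0 then p else th p) 1 + σ p) := by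
    have e : νL - Th νR = ∑ p ∈ F0, (if p 0 < 0 then w p else -w p) •
        Finsupp.single (if p 0 < 0 then p else th p) (1 : ℝ) := by
      rw [hTR, hνL, ← Finset.sum_sub_distrib]
      refine Finset.sum_congr rfl fun p _ => ?_
      split_ifs <;> simp
    simp only [smul_add, Finset.sum_add_distrib, map_add, map_sub, map_smul, hT0, hTs]
    rw [← e, ← hs]
    module
  rw [e1, e2, hval] at key
  have hz : ∑ p ∈ F0, |if p 0 < 0 then w p else -w p| ≤ K * F0.card + 1 := by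
    have : ∑ p ∈ F0, |if p 0 < 0 then w p else -w p| ≤ ∑ _p ∈ F0, K :=
      Finset.sum_le_sum fun p hp => by
        split_ifs
        · exact hw p hp
        · rw [abs_neg]
          exact hw p hp
    rw [Finset.sum_const, nsmul_eq_mul] at this
    linarith
  have hz2 : ε / (4 * (K * F0.card + 1) ^ 2) * (∑ p ∈ F0, |if p 0 < 0 then w p else -w p|) ^ 2
      ≤ ε / 4 := by
    calc _ ≤ ε / (4 * (K * F0.card + 1) ^ 2) * (K * F0.card + 1) ^ 2 :=
          mul_le_mul_of_nonneg_left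
            (pow_le_pow_left₀ (Finset.sum_nonneg fun p _ => abs_nonneg _) hz 2) (by positivity)
      _ = ε / 4 := by field_simp
  have hM : M (↑F0 ∪ Nd T) = Hedge.mag (↑F0 ∪ Nd T) := rfl
  linarith
end

section
/-! The reflection inequality for bounded sets and for truncated wedges. -/

lemma rps_abs_one_le_norm (p : Pl) : |p 1| ≤ ‖p‖ := by
  have h := abs_one_le_dist p 0
  simpa using h

lemma rps_grow {ρ T0 ε : ℝ} (hρ : ρ ≤ T0)
    (hf : ∀ A B : Set Pl, Bornology.IsBounded A → Bornology.IsBounded B →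
      (∀ u ∈ A \ B, ‖u‖ ≤ ρ) → (∀ v ∈ B \ A, T0 ≤ ‖v‖) → |df A B| ≤ ε)
    {S : Set Pl} (hS : Bornology.IsBounded S) (hb : ∀ u ∈ S, ‖u‖ ≤ ρ) {T : ℝ} (hT : T0 ≤ T) :
    |M (S ∪ Nd T) + M (Nd T0) - M (S ∪ Nd T0) - M (Nd T)| ≤ ε := by
  have hsub : Nd T0 ⊆ Nd T := fun p hp => ⟨hp.1, hp.2.trans hT⟩
  have h := hf (S ∪ Nd T0) (Nd T) (hS.union (bdd_Nd T0)) (bdd_Nd T)
    (by
      rintro u ⟨hu | hu, hn⟩
      · exact hb u hu
      · exact absurd (hsub hu) hn)
    (by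
      rintro v ⟨hv, hn⟩
      have h1 : ¬ |v 1| ≤ T0 := fun h1 => hn (Or.inr ⟨hv.1, h1⟩)
      exact (not_le.1 h1).le.trans (rps_abs_one_le_norm v))
  have e1 : (S ∪ Nd T0) ∪ Nd T = S ∪ Nd T := by
    rw [union_assoc, union_eq_self_of_subset_left hsub]
  have e2 : (S ∪ Nd T0) ∩ Nd T = Nd T0 := by
    ext p
    constructor
    · rintro ⟨hp | hp, hq⟩
      · exact ⟨hq.1, ((rps_abs_one_le_norm p).trans (hb p hp)).trans hρ⟩
      · exact hp
    · intro hp
      exact ⟨Or.inr hp, hsub hp⟩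
  unfold df at h
  rwa [e1, e2] at h

lemma rps_th_Nd (T : ℝ) : th '' Nd T = Nd T := by
  ext p
  constructor
  · rintro ⟨q, hq, rfl⟩
    rw [th_axis hq.1]
    exact hq
  · intro hp
    exact ⟨p, hp, th_axis hp.1⟩

theorem rpset {A : Set Pl} (hA : Bornology.IsBounded A) (hsym : ∀ p ∈ A, 0 < p 0 → th p ∈ A) :
    ∀ᶠ T : ℝ in atTop, -1 ≤ df (A ∪ Nd T) (th '' A ∪ Nd T) := by
  obtain ⟨ρ, hρ0, hρ⟩ := hA.exists_pos_norm_le
  have h7 : (0 : ℝ) < 1 / 7 := by norm_num
  obtain ⟨T0, hT0, hf⟩ := far hρ0.le h7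
  obtain ⟨F, hF, hlt⟩ := Hedge.exists_lt_magF (A ∪ Nd T0) h7
  have hF0A : ∀ p ∈ F.filter (fun p : Pl => p 0 ≠ 0), p ∈ A := by
    intro p hp
    obtain ⟨hp1, hp2⟩ := Finset.mem_filter.1 hp
    rcases hF (Finset.mem_coe.2 hp1) with h | h
    · exact h
    · exact absurd h.1 hp2
  obtain ⟨T1, hT1⟩ := rpfin (F.filter (fun p : Pl => p 0 ≠ 0))
    (fun p hp => (Finset.mem_filter.1 hp).2) h7
  have hthA : Bornology.IsBounded (th '' A) := isometry_th.lipschitz.isBounded_image hA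
  have hSb : Bornology.IsBounded (↑(F.filter (fun p : Pl => p 0 ≠ 0)) : Set Pl) :=
    (Finset.finite_toSet _).isBounded
  have hlow : Hedge.magF F ≤ M (↑(F.filter (fun p : Pl => p 0 ≠ 0)) ∪ Nd T0) := by
    refine Hedge.magF_le_mag (hSb.union (bdd_Nd T0)) ?_
    intro p hp
    by_cases h0 : p 0 = 0
    · rcases hF hp with h | h
      · exact Or.inr ⟨h0, ((rps_abs_one_le_norm p).trans (hρ p h)).trans hT0⟩
      · exact Or.inr h
    · exact Or.inl (Finset.mem_coe.2 (Finset.mem_filter.2 ⟨Finset.mem_coe.1 hp, h0⟩))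
  have hlt' : M (A ∪ Nd T0) - 1 / 7 < Hedge.magF F := hlt
  filter_upwards [eventually_ge_atTop T0, eventually_ge_atTop T1] with T hT hT'
  have g1 := rps_grow hT0 hf hA hρ hT
  have g2 := rps_grow hT0 hf hSb (fun u hu => hρ u (hF0A u (Finset.mem_coe.1 hu))) hT
  have b1 : Bornology.IsBounded (A ∪ Nd T) := hA.union (bdd_Nd T)
  have b2 : Bornology.IsBounded (th '' A ∪ Nd T) := hthA.union (bdd_Nd T)
  have g3 := hT1 T hT' ((A ∪ Nd T) ∪ (th '' A ∪ Nd T)) ((A ∪ Nd T) ∩ (th '' A ∪ Nd T))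
    (b1.union b2) (b1.subset inter_subset_left)
    (fun p hp => Or.inl (Or.inr hp)) (fun p hp => ⟨Or.inr hp, Or.inr hp⟩)
    (fun p hp _ => ⟨Or.inl (Or.inl (hF0A p hp)), Or.inr (Or.inl ⟨p, hF0A p hp, rfl⟩)⟩)
    (fun p hp h0 => ⟨⟨Or.inl (hF0A p hp), Or.inl ⟨th p, hsym p (hF0A p hp) h0, th_th p⟩⟩,
      ⟨Or.inl (hsym p (hF0A p hp) h0), Or.inl ⟨p, hF0A p hp, rfl⟩⟩⟩)
  have g4 : M (th '' A ∪ Nd T) = M (A ∪ Nd T) := by
    have h := M_iso isometry_th b1
    rwa [image_union, rps_th_Nd] at h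
  have a1 := abs_le.1 g1
  have a2 := abs_le.1 g2
  unfold df
  rw [g4]
  linarith [a1.1, a1.2, a2.1, a2.2]

lemma rps_needle {C : ℝ}
    (hC : ∀ X : Set Pl, Bornology.IsBounded X → ∀ h a : ℝ, 0 ≤ a →
      ((∀ p ∈ X, p 1 ≤ h → |p 0| ≤ a) ∨ (∀ p ∈ X, h < p 1 → |p 0| ≤ a)) →
      |M X - M (X ∩ {p | p 1 ≤ h}) - M (X ∩ {p | h < p 1})| ≤ C * (1 + a))
    {X : Set Pl} (hX : Bornology.IsBounded X) {h H : ℝ} (hH : h ≤ H) (T : ℝ)
    (hin : ∀ p ∈ X, h < p 1 ∧ p 1 ≤ H)
    (hax : ∀ p : Pl, p 0 = 0 → h < p 1 → p 1 ≤ H → p ∈ X) :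
    |M (X ∪ Nd T) - M X - (M (Nd T ∩ {p | p 1 ≤ h}) + M (Nd T ∩ {p | H < p 1}))| ≤ 2 * C := by
  have b1 : Bornology.IsBounded (X ∪ Nd T) := hX.union (bdd_Nd T)
  have c1 := hC (X ∪ Nd T) b1 h 0 le_rfl (Or.inl (by
    rintro p (hp | hp) h1
    · exact absurd h1 (not_le.2 (hin p hp).1)
    · simp [hp.1]))
  have c2 := hC ((X ∪ Nd T) ∩ {p | h < p 1}) (b1.subset inter_subset_left) H 0 le_rfl (Or.inr (by
    rintro p ⟨hp | hp, _⟩ h1
    · exact absurd h1 (not_lt.2 (hin p hp).2)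
    · simp [hp.1]))
  have e1 : (X ∪ Nd T) ∩ {p | p 1 ≤ h} = Nd T ∩ {p | p 1 ≤ h} := by
    ext p
    constructor
    · rintro ⟨hp | hp, h1⟩
      · exact absurd h1 (not_le.2 (hin p hp).1)
      · exact ⟨hp, h1⟩
    · rintro ⟨hp, h1⟩
      exact ⟨Or.inr hp, h1⟩
  have e2 : (X ∪ Nd T) ∩ {p | h < p 1} ∩ {p | p 1 ≤ H} = X := by
    ext p
    constructor
    · rintro ⟨⟨hp | hp, h1⟩, h2⟩
      · exact hp
      · exact hax p hp.1 h1 h2
    · intro hp
      exact ⟨⟨Or.inl hp, (hin p hp).1⟩, (hin p hp).2⟩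
  have e3 : (X ∪ Nd T) ∩ {p | h < p 1} ∩ {p | H < p 1} = Nd T ∩ {p | H < p 1} := by
    ext p
    constructor
    · rintro ⟨⟨hp | hp, _⟩, h2⟩
      · exact absurd h2 (not_lt.2 (hin p hp).2)
      · exact ⟨hp, h2⟩
    · rintro ⟨hp, h2⟩
      exact ⟨⟨Or.inr hp, lt_of_le_of_lt hH h2⟩, h2⟩
  rw [e1] at c1
  rw [e2, e3] at c2
  have a1 := abs_le.1 c1
  have a2 := abs_le.1 c2
  exact abs_le.2 ⟨by linarith [a1.1, a2.1], by linarith [a1.2, a2.2]⟩

theorem rest : ∃ C : ℝ, ∀ β α h H : ℝ, 0 ≤ α → α ≤ β → 0 ≤ h → h ≤ H →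
    -C ≤ df (Wd β α H ∩ {p | h < p 1}) (Wd α β H ∩ {p | h < p 1}) := by
  obtain ⟨C, _, hC⟩ := cut
  refine ⟨8 * C + 1, fun β α h H hα hαβ hh hH => ?_⟩
  have hβ : 0 ≤ β := hα.trans hαβ
  have bA : Bornology.IsBounded (Wd β α H ∩ {p | h < p 1}) :=
    (bdd_Wd β α H).subset inter_subset_left
  have bB : Bornology.IsBounded (Wd α β H ∩ {p | h < p 1}) :=
    (bdd_Wd α β H).subset inter_subset_left
  have hsym : ∀ p ∈ Wd β α H ∩ {p : Pl | h < p 1}, 0 < p 0 → th p ∈ Wd β α H ∩ {p : Pl | h < p 1} := by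
    rintro p ⟨⟨_, h2, h3, h4⟩, h5⟩ h0
    refine ⟨⟨?_, ?_, h3, h4⟩, h5⟩
    · rw [th_zero, th_one]
      nlinarith [mul_le_mul_of_nonneg_right hαβ h3]
    · rw [th_zero, th_one]
      nlinarith [mul_nonneg hα h3]
  have hth : th '' (Wd β α H ∩ {p : Pl | h < p 1}) = Wd α β H ∩ {p : Pl | h < p 1} := by
    ext p
    constructor
    · rintro ⟨q, ⟨⟨h1, h2, h3, h4⟩, h5⟩, rfl⟩
      refine ⟨⟨?_, ?_, h3, h4⟩, h5⟩
      · rw [th_zero, th_one]
        linarith
      · rw [th_zero, th_one]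
        linarith
    · rintro ⟨⟨h1, h2, h3, h4⟩, h5⟩
      refine ⟨th p, ⟨⟨?_, ?_, h3, h4⟩, h5⟩, th_th p⟩
      · rw [th_zero, th_one]
        linarith
      · rw [th_zero, th_one]
        linarith
  obtain ⟨T, hT⟩ := (rpset bA hsym).exists
  rw [hth] at hT
  have inA : ∀ p ∈ Wd β α H ∩ {p : Pl | h < p 1}, h < p 1 ∧ p 1 ≤ H :=
    fun p hp => ⟨hp.2, hp.1.2.2.2⟩
  have inB : ∀ p ∈ Wd α β H ∩ {p : Pl | h < p 1}, h < p 1 ∧ p 1 ≤ H :=
    fun p hp => ⟨hp.2, hp.1.2.2.2⟩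
  have ax : ∀ a b : ℝ, 0 ≤ a → 0 ≤ b → ∀ p : Pl, p 0 = 0 → h < p 1 → p 1 ≤ H →
      p ∈ Wd b a H ∩ {p : Pl | h < p 1} := by
    intro a b ha hb p h0 h1 h2
    have h3 : 0 ≤ p 1 := hh.trans h1.le
    refine ⟨⟨?_, ?_, h3, h2⟩, h1⟩
    · rw [h0]
      linarith [mul_nonneg hb h3]
    · rw [h0]
      exact mul_nonneg ha h3
  have n1 := rps_needle hC bA hH T inA (ax α β hα hβ)
  have n2 := rps_needle hC bB hH T inB (ax β α hβ hα)
  have n3 := rps_needle hC (bA.union bB) hH T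
    (fun p hp => hp.elim (inA p) (inB p)) (fun p h0 h1 h2 => Or.inl (ax α β hα hβ p h0 h1 h2))
  have n4 := rps_needle hC (bA.subset (inter_subset_left (t := Wd α β H ∩ {p : Pl | h < p 1}))) hH T
    (fun p hp => inA p hp.1)
    (fun p h0 h1 h2 => ⟨ax α β hα hβ p h0 h1 h2, ax β α hβ hα p h0 h1 h2⟩)
  unfold df at hT ⊢
  rw [← union_union_distrib_right, ← inter_union_distrib_right] at hT
  have a1 := abs_le.1 n1
  have a2 := abs_le.1 n2
  have a3 := abs_le.1 n3
  have a4 := abs_le.1 n4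
  linarith [a1.1, a1.2, a2.1, a2.2, a3.1, a3.2, a4.1, a4.2]
end

section
/-! Triangles with a thin full-dimensional overlap. -/

lemma main_compact (b a h : ℝ) : IsCompact (Wd b a h) := by
  refine Metric.isCompact_of_isClosed_isBounded ?_ (bdd_Wd b a h)
  have c0 : Continuous fun p : Pl => p 0 := by fun_prop
  have c1 : Continuous fun p : Pl => p 1 := by fun_prop
  exact (isClosed_le (continuous_const.mul c1).neg c0).inter
    ((isClosed_le c0 (continuous_const.mul c1)).inter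
      ((isClosed_le continuous_const c1).inter (isClosed_le c1 continuous_const)))

lemma main_convex (b a h : ℝ) : Convex ℝ (Wd b a h) := by
  rintro p ⟨p1, p2, p3, p4⟩ q ⟨q1, q2, q3, q4⟩ s r hs hr hsr
  have e0 : (s • p + r • q) 0 = s * p 0 + r * q 0 := by simp
  have e1 : (s • p + r • q) 1 = s * p 1 + r * q 1 := by simp
  have eh : h = s * h + r * h := by rw [← add_mul, hsr, one_mul]
  refine ⟨?_, ?_, ?_, ?_⟩
  · rw [e0, e1]
    linarith [mul_le_mul_of_nonneg_left p1 hs, mul_le_mul_of_nonneg_left q1 hr]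
  · rw [e0, e1]
    linarith [mul_le_mul_of_nonneg_left p2 hs, mul_le_mul_of_nonneg_left q2 hr]
  · rw [e1]
    exact add_nonneg (mul_nonneg hs p3) (mul_nonneg hr q3)
  · rw [e1]
    linarith [mul_le_mul_of_nonneg_left p4 hs, mul_le_mul_of_nonneg_left q4 hr]

lemma main_interior {a : ℝ} (ha : 0 < a) : (interior (Wd a a 1)).Nonempty := by
  have c0 : Continuous fun p : Pl => p 0 := by fun_prop
  have c1 : Continuous fun p : Pl => p 1 := by fun_prop
  have ho : IsOpen {p : Pl | -(a * p 1) < p 0 ∧ p 0 < a * p 1 ∧ 0 < p 1 ∧ p 1 < 1} :=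
    (isOpen_lt (continuous_const.mul c1).neg c0).inter
      ((isOpen_lt c0 (continuous_const.mul c1)).inter
        ((isOpen_lt continuous_const c1).inter (isOpen_lt c1 continuous_const)))
  refine ⟨pt 0 (1 / 2), interior_maximal (fun p hp => ?_) ho ?_⟩
  · exact ⟨hp.1.le, hp.2.1.le, hp.2.2.1.le, hp.2.2.2.le⟩
  · simp only [mem_ofPred_eq, pt_zero, pt_one]
    refine ⟨by linarith, by linarith, by norm_num, by norm_num⟩

lemma main_smul (b a : ℝ) {t : ℝ} (ht : 0 < t) : t • Wd b a 1 = Wd b a t := by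
  ext p
  rw [mem_smul_set_iff_inv_smul_mem₀ ht.ne']
  have e0 : (t⁻¹ • p) 0 = t⁻¹ * p 0 := by simp
  have e1 : (t⁻¹ • p) 1 = t⁻¹ * p 1 := by simp
  have hi : 0 < t⁻¹ := inv_pos.2 ht
  simp only [Wd, mem_ofPred_eq, e0, e1]
  have k1 : -(b * (t⁻¹ * p 1)) ≤ t⁻¹ * p 0 ↔ -(b * p 1) ≤ p 0 := by
    rw [show -(b * (t⁻¹ * p 1)) = t⁻¹ * -(b * p 1) by ring]
    exact mul_le_mul_iff_right₀ hi
  have k2 : t⁻¹ * p 0 ≤ a * (t⁻¹ * p 1) ↔ p 0 ≤ a * p 1 := by
    rw [show a * (t⁻¹ * p 1) = t⁻¹ * (a * p 1) by ring]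
    exact mul_le_mul_iff_right₀ hi
  have k3 : 0 ≤ t⁻¹ * p 1 ↔ 0 ≤ p 1 := mul_nonneg_iff_of_pos_left hi
  have k4 : t⁻¹ * p 1 ≤ 1 ↔ p 1 ≤ t := by rw [inv_mul_le_iff₀ ht, mul_one]
  rw [k1, k2, k3, k4]

lemma main_low (b a : ℝ) {h t : ℝ} (hht : h ≤ t) : Wd b a t ∩ {p | p 1 ≤ h} = Wd b a h := by
  ext p
  simp only [Wd, mem_inter_iff, mem_ofPred_eq]
  constructor
  · rintro ⟨⟨h1, h2, h3, _⟩, h5⟩
    exact ⟨h1, h2, h3, h5⟩
  · rintro ⟨h1, h2, h3, h4⟩
    exact ⟨⟨h1, h2, h3, h4.trans hht⟩, h4⟩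

theorem main (K : ℝ) : ∃ A B : Set Pl, IsCompact A ∧ IsCompact B ∧ Convex ℝ A ∧ Convex ℝ B ∧
    Convex ℝ (A ∪ B) ∧ (interior (A ∩ B)).Nonempty ∧ ∀ᶠ t : ℝ in atTop,
      K ≤ M (t • (A ∪ B)) + M (t • (A ∩ B)) - M (t • A) - M (t • B) := by
  obtain ⟨C, hC, hcut⟩ := cut
  obtain ⟨C1, hrest⟩ := rest
  obtain ⟨β, hβ, hCβ⟩ : ∃ β : ℝ, 0 < β ∧ C * β ≤ 1 / 8000 := by
    refine ⟨1 / (8000 * (C + 1)), by positivity, ?_⟩
    rw [mul_one_div, div_le_div_iff₀ (by positivity) (by norm_num)]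
    linarith
  obtain ⟨K0, htip⟩ := tip hβ
  obtain ⟨h, ht, h1, h2, h3⟩ := (htip.and ((eventually_gt_atTop 0).and
    ((eventually_ge_atTop (1 / 1000 / β)).and
      (eventually_ge_atTop (2000 * (K + K0 + 4 * C + C1)))))).exists
  obtain ⟨α, hα⟩ : ∃ α : ℝ, α = 1 / 1000 / h := ⟨_, rfl⟩
  rw [← hα] at ht
  have hα0 : 0 < α := by rw [hα]; positivity
  have hαβ : α ≤ β := by
    rw [hα, div_le_iff₀ h1]
    rw [div_le_iff₀ hβ] at h2
    linarith
  refine ⟨Wd β α 1, Wd α β 1, main_compact _ _ _, main_compact _ _ _, main_convex _ _ _,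
    main_convex _ _ _, ?_, ?_, ?_⟩
  · rw [Wd_union hα0.le hαβ]
    exact main_convex _ _ _
  · rw [Wd_inter hαβ]
    exact main_interior hα0
  filter_upwards [eventually_ge_atTop h] with t hht
  have ht0 : 0 < t := h1.trans_le hht
  rw [Wd_union hα0.le hαβ, Wd_inter hαβ, main_smul _ _ ht0, main_smul _ _ ht0, main_smul _ _ ht0,
    main_smul _ _ ht0]
  have key : ∀ b a : ℝ, b ≤ β → a ≤ β →
      |M (Wd b a t) - M (Wd b a h) - M (Wd b a t ∩ {p | h < p 1})| ≤ C * (1 + β * h) := by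
    intro b a hb ha
    have := hcut (Wd b a t) (bdd_Wd _ _ _) h (β * h) (by positivity) (Or.inl fun p hp hph => by
      obtain ⟨p1, p2, p3, _⟩ := hp
      have q1 := mul_le_mul_of_nonneg_right hb p3
      have q2 := mul_le_mul_of_nonneg_right ha p3
      have q3 := mul_le_mul_of_nonneg_left hph hβ.le
      exact abs_le.2 ⟨by linarith, by linarith⟩)
    rwa [main_low _ _ hht] at this
  have kU := abs_le.1 (key β β le_rfl le_rfl)
  have kI := abs_le.1 (key α α hαβ hαβ)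
  have kA := abs_le.1 (key β α le_rfl hαβ)
  have kB := abs_le.1 (key α β hαβ le_rfl)
  have hr := hrest β α h t hα0.le hαβ h1.le hht
  unfold df at ht hr
  rw [Wd_union hα0.le hαβ, Wd_inter hαβ] at ht
  rw [← union_inter_distrib_right, ← inter_inter_distrib_right, Wd_union hα0.le hαβ,
    Wd_inter hαβ] at hr
  have hb : C * (1 + β * h) ≤ C + h / 8000 := by
    have := mul_le_mul_of_nonneg_right hCβ h1.le
    linarith
  linarith [kU.1, kI.1, kA.2, kB.2]
end

end Pool.Agent.Work.MP_6e5b56_gt.Wg
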